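import Mathlib

/-! General real-variable lemmas: sign propagation at zeros, counting. -/

set_option autoImplicit false
open Set

namespace Pool.Agent.Helper75x.CE

/-- If `f' > 0` at every zero of `f` in `[x, y]` and `0 ≤ f x`, then `0 < f y`. -/
lemma pos_of_deriv_pos_at_zeros {f f' : ℝ → ℝ} {x y : ℝ} (hxy : x < y)
    (hd : ∀ z ∈ Icc x y, HasDerivAt f (f' z) z)
    (hz : ∀ z ∈ Icc x y, f z = 0 → 0 < f' z) (hx : 0 ≤ f x) : 0 < f y := by
  have key : ∀ z ∈ Icc x y, f z = 0 → ∃ δ > 0, (∀ t ∈ Ioo z (z + δ), 0 < f t) ∧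
      (∀ t ∈ Ioo (z - δ) z, f t < 0) := by
    intro z hzI hz0
    have h1 := hd z hzI
    have hp := hz z hzI hz0
    have h2 : Filter.Tendsto (slope f z) (nhdsWithin z {z}ᶜ) (nhds (f' z)) :=
      hasDerivAt_iff_tendsto_slope.1 h1
    have h3 : ∀ᶠ t in nhdsWithin z {z}ᶜ, 0 < slope f z t := h2.eventually (lt_mem_nhds hp)
    rw [eventually_nhdsWithin_iff, Metric.eventually_nhds_iff] at h3
    obtain ⟨δ, hδ, h4⟩ := h3
    refine ⟨δ, hδ, ?_, ?_⟩
    · intro t ht
      have h5 := h4 (y := t) (by rw [Real.dist_eq, abs_lt]; constructor <;> linarith [ht.1, ht.2])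
        (by simp; exact ht.1.ne')
      rw [slope_def_field, hz0, sub_zero] at h5
      rcases (div_pos_iff).1 h5 with h6 | h6
      · exact h6.1
      · linarith [h6.2, ht.1]
    · intro t ht
      have h5 := h4 (y := t) (by rw [Real.dist_eq, abs_lt]; constructor <;> linarith [ht.1, ht.2])
        (by simp; exact ht.2.ne)
      rw [slope_def_field, hz0, sub_zero] at h5
      rcases (div_pos_iff).1 h5 with h6 | h6
      · linarith [h6.2, ht.2]
      · exact h6.1
  by_contra hy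
  rw [not_lt] at hy
  -- a point x' in [x,y) with f x' > 0
  obtain ⟨x', hx', hx'pos⟩ : ∃ x' ∈ Ico x y, 0 < f x' := by
    rcases eq_or_lt_of_le hx with h0 | h0
    · obtain ⟨δ, hδ, h1, -⟩ := key x ⟨le_rfl, hxy.le⟩ h0.symm
      have hm : 0 < min (δ / 2) ((y - x) / 2) := lt_min (by linarith) (by linarith)
      refine ⟨x + min (δ / 2) ((y - x) / 2), ⟨?_, ?_⟩, h1 _ ⟨?_, ?_⟩⟩
      · linarith
      · have := min_le_right (δ / 2) ((y - x) / 2)
        linarith
      · linarith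
      · have := min_le_left (δ / 2) ((y - x) / 2)
        linarith
    · exact ⟨x, ⟨le_rfl, hxy⟩, h0⟩
  have hcont : ContinuousOn f (Icc x y) := fun z hz' => (hd z hz').continuousAt.continuousWithinAt
  have hcont' : ContinuousOn f (Icc x' y) := hcont.mono (Icc_subset_Icc_left hx'.1)
  set A : Set ℝ := {t | t ∈ Icc x' y ∧ f t ≤ 0} with hA
  have hAc : IsClosed A :=
    hcont'.preimage_isClosed_of_isClosed isClosed_Icc (isClosed_Iic (a := (0 : ℝ)))
  have hAne : A.Nonempty := ⟨y, ⟨hx'.2.le, le_rfl⟩, hy⟩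
  have hAb : BddBelow A := ⟨x', fun t ht => ht.1.1⟩
  have hzA : sInf A ∈ A := hAc.csInf_mem hAne hAb
  set z := sInf A with hzdef
  have hzx' : x' < z := by
    rcases eq_or_lt_of_le hzA.1.1 with h | h
    · rw [← h] at hzA
      linarith [hzA.2]
    · exact h
  have hbefore : ∀ t ∈ Ico x' z, 0 < f t := by
    intro t ht
    by_contra h
    rw [not_lt] at h
    have : z ≤ t := csInf_le hAb ⟨⟨ht.1, ht.2.le.trans hzA.1.2⟩, h⟩
    linarith [ht.2]
  have hzI : z ∈ Icc x y := ⟨hx'.1.trans hzA.1.1, hzA.1.2⟩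
  have hz0 : f z = 0 := by
    apply le_antisymm hzA.2
    have h1 : Filter.Tendsto f (nhdsWithin z (Iio z)) (nhds (f z)) :=
      (hd z hzI).continuousAt.tendsto.mono_left nhdsWithin_le_nhds
    refine ge_of_tendsto h1 ?_
    have : Ioo x' z ∈ nhdsWithin z (Iio z) := Ioo_mem_nhdsLT hzx'
    filter_upwards [this] with t ht
    exact (hbefore t ⟨ht.1.le, ht.2⟩).le
  obtain ⟨δ, hδ, -, h2⟩ := key z hzI hz0
  have h3 := h2 (max ((x' + z) / 2) (z - δ / 2)) ⟨lt_of_lt_of_le (by linarith) (le_max_right _ _),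
    max_lt (by linarith) (by linarith)⟩
  have h4 := hbefore (max ((x' + z) / 2) (z - δ / 2))
    ⟨le_trans (by linarith) (le_max_left _ _), max_lt (by linarith) (by linarith)⟩
  linarith

/-- If `f' < 0` at every zero of `f` in `[x, y]` and `f x ≤ 0`, then `f y < 0`. -/
lemma neg_of_deriv_neg_at_zeros {f f' : ℝ → ℝ} {x y : ℝ} (hxy : x < y)
    (hd : ∀ z ∈ Icc x y, HasDerivAt f (f' z) z)
    (hz : ∀ z ∈ Icc x y, f z = 0 → f' z < 0) (hx : f x ≤ 0) : f y < 0 := by
  have := pos_of_deriv_pos_at_zeros (f := fun t => -f t) (f' := fun t => -f' t) hxy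
    (fun z h => (hd z h).neg) (fun z h h0 => by
      have := hz z h (by simpa using h0)
      linarith) (by simpa using hx)
  simpa using this

/-- Finite subsets bounded in size give a finite set. -/
lemma finite_ncard_le {α : Type*} {A : Set α} {k : ℕ}
    (h : ∀ s : Finset α, (s : Set α) ⊆ A → s.card ≤ k) : A.Finite ∧ A.ncard ≤ k := by
  have hf : A.Finite := by
    by_contra hinf
    obtain ⟨t, ht, hc⟩ := (show A.Infinite from hinf).exists_subset_card_eq (k + 1)
    have := h t ht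
    omega
  refine ⟨hf, ?_⟩
  rw [ncard_eq_toFinset_card A hf]
  exact h _ (by simp)

lemma card_le_one_of {A : Set ℝ} (h : ∀ x ∈ A, ∀ y ∈ A, x < y → False) :
    A.Finite ∧ A.ncard ≤ 1 := by
  apply finite_ncard_le
  intro s hs
  rw [Finset.card_le_one]
  intro a ha b hb
  by_contra hne
  rcases lt_or_gt_of_ne hne with h1 | h1
  · exact h a (hs ha) b (hs hb) h1
  · exact h b (hs hb) a (hs ha) h1

lemma card_le_two_of {A : Set ℝ}
    (h : ∀ x ∈ A, ∀ y ∈ A, ∀ z ∈ A, x < y → y < z → False) :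
    A.Finite ∧ A.ncard ≤ 2 := by
  apply finite_ncard_le
  intro s hs
  by_contra hc
  rw [not_le] at hc
  set f := s.orderEmbOfFin rfl with hf
  have hmem : ∀ i, f i ∈ A := fun i => hs (Finset.orderEmbOfFin_mem s rfl i)
  have hlt : ∀ i j, i < j → f i < f j := fun i j hij => f.strictMono hij
  exact h _ (hmem ⟨0, by omega⟩) _ (hmem ⟨1, by omega⟩) _ (hmem ⟨2, by omega⟩)
    (hlt _ _ (by simp [Fin.lt_def])) (hlt _ _ (by simp [Fin.lt_def]))

lemma card_le_three_of {A : Set ℝ}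
    (h : ∀ x ∈ A, ∀ y ∈ A, ∀ z ∈ A, ∀ w ∈ A, x < y → y < z → z < w → False) :
    A.Finite ∧ A.ncard ≤ 3 := by
  apply finite_ncard_le
  intro s hs
  by_contra hc
  rw [not_le] at hc
  set f := s.orderEmbOfFin rfl with hf
  have hmem : ∀ i, f i ∈ A := fun i => hs (Finset.orderEmbOfFin_mem s rfl i)
  have hlt : ∀ i j, i < j → f i < f j := fun i j hij => f.strictMono hij
  exact h _ (hmem ⟨0, by omega⟩) _ (hmem ⟨1, by omega⟩) _ (hmem ⟨2, by omega⟩) _
    (hmem ⟨3, by omega⟩) (hlt _ _ (by simp [Fin.lt_def])) (hlt _ _ (by simp [Fin.lt_def]))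
    (hlt _ _ (by simp [Fin.lt_def]))

/-- Interleaving: between two points of `A` there is a point of `B ∪ C`. -/
lemma ncard_le_of_interleaved {A B C : Set ℝ} {p q : ℕ} (hB : B.Finite ∧ B.ncard ≤ p)
    (hC : C.Finite ∧ C.ncard ≤ q)
    (h : ∀ x ∈ A, ∀ y ∈ A, x < y → ∃ z ∈ Ioo x y, z ∈ B ∨ z ∈ C) :
    A.Finite ∧ A.ncard ≤ p + q + 1 := by
  apply finite_ncard_le
  intro s hs
  have h1 : s.card ≤ (hB.1.union hC.1).toFinset.card + 1 := by
    apply Finset.card_le_of_interleaved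
    intro x hx y hy hxy _
    obtain ⟨z, hz, hz'⟩ := h x (hs hx) y (hs hy) hxy
    exact ⟨z, by simpa using hz', hz.1, hz.2⟩
  have h2 : (hB.1.union hC.1).toFinset.card ≤ p + q := by
    rw [← ncard_eq_toFinset_card (B ∪ C) (hB.1.union hC.1)]
    exact (ncard_union_le B C).trans (add_le_add hB.2 hC.2)
  omega

end Pool.Agent.Helper75x.CE
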