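import Pool.Agent.Helper75x.CE.Fns

/-! Sign of `S`, and the zeros of `Φ` for negative `ε`. -/

set_option autoImplicit false
open Set Real

namespace Pool.Agent.Helper75x.CE

noncomputable def NN (K ω θ : ℝ) : ℝ := K * sin θ ^ 3 * cos ω + cos θ ^ 3 * sin ω

lemma g2_eq (K θ : ℝ) : g2 K θ = 1 - (1 - K) * sin θ ^ 2 := by
  unfold g2
  linear_combination sin_sq_add_cos_sq θ

lemma S_mul {K ω θ : ℝ} (hK : 0 < K) (hs : sin (θ - ω) ≠ 0) :
    S K ω θ * (g2 K θ ^ 2 * sin (θ - ω)) = -((1 - K) * NN K ω θ) := by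
  have hg := g2_pos hK θ
  have h1 : S K ω θ * (g2 K θ ^ 2 * sin (θ - ω)) =
      (g2 K θ ^ 2 - K) * sin (θ - ω) - (1 - K) * sin θ * cos θ * g2 K θ * cos (θ - ω) := by
    unfold S kp A1 Y
    field_simp
  rw [h1, sin_sub, cos_sub, g2_eq]
  unfold NN
  linear_combination (-(1 - K) * sin θ * (1 - (1 - K) * sin θ ^ 2) * cos ω
    + cos θ * (1 - K) * sin ω) * sin_sq_add_cos_sq θ

lemma S_neg_iff {K ω θ : ℝ} (hK : 0 < K) (hK1 : K < 1) (hs : 0 < sin (θ - ω)) :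
    S K ω θ < 0 ↔ 0 < NN K ω θ := by
  have h := S_mul hK hs.ne'
  have hg := g2_pos hK θ
  have hp : 0 < g2 K θ ^ 2 * sin (θ - ω) := by positivity
  have h1K : 0 < 1 - K := by linarith
  constructor
  · intro hS
    by_contra hN
    rw [not_lt] at hN
    have h1 : S K ω θ * (g2 K θ ^ 2 * sin (θ - ω)) < 0 := mul_neg_of_neg_of_pos hS hp
    rw [h] at h1
    nlinarith [mul_nonneg h1K.le (neg_nonneg.2 hN)]
  · intro hN
    by_contra hS
    rw [not_lt] at hS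
    have h1 : 0 ≤ S K ω θ * (g2 K θ ^ 2 * sin (θ - ω)) := mul_nonneg hS hp.le
    rw [h] at h1
    nlinarith [mul_pos h1K hN]

lemma S_pos_iff {K ω θ : ℝ} (hK : 0 < K) (hK1 : K < 1) (hs : 0 < sin (θ - ω)) :
    0 < S K ω θ ↔ NN K ω θ < 0 := by
  have h := S_mul hK hs.ne'
  have hg := g2_pos hK θ
  have hp : 0 < g2 K θ ^ 2 * sin (θ - ω) := by positivity
  have h1K : 0 < 1 - K := by linarith
  constructor
  · intro hS
    by_contra hN
    rw [not_lt] at hN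
    have h1 : 0 < S K ω θ * (g2 K θ ^ 2 * sin (θ - ω)) := mul_pos hS hp
    rw [h] at h1
    nlinarith [mul_nonneg h1K.le hN]
  · intro hN
    by_contra hS
    rw [not_lt] at hS
    have h1 : S K ω θ * (g2 K θ ^ 2 * sin (θ - ω)) ≤ 0 := mul_nonpos_of_nonpos_of_nonneg hS hp.le
    rw [h] at h1
    nlinarith [mul_pos h1K (neg_pos.2 hN)]

lemma sin_phi_pos {ω θ : ℝ} (h1 : ω < θ) (h2 : θ < ω + π) : 0 < sin (θ - ω) :=
  sin_pos_of_pos_of_lt_pi (by linarith) (by linarith)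

/-- On `[π, ω + π)` the discriminant `A1² - 4 S` is negative. -/
lemma four_S_gt {K ω θ : ℝ} (hK : 0 < K) (hK1 : K < 1) (_hω : 0 ≤ ω) (hω2 : ω ≤ π / 2)
    (h1 : π ≤ θ) (h2 : θ < ω + π) : A1 K θ ^ 2 < 4 * S K ω θ := by
  have hs : 0 < sin (θ - ω) := sin_phi_pos (by linarith [pi_pos]) h2
  have h := S_mul hK hs.ne'
  have hg := g2_pos hK θ
  have hω0 : 0 < ω := by linarith
  have hsω : 0 < sin ω := sin_pos_of_pos_of_lt_pi hω0 (by linarith [pi_pos])
  have hcω : 0 ≤ cos ω := cos_nonneg_of_mem_Icc ⟨by linarith, hω2⟩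
  obtain ⟨t, ht⟩ : ∃ t, t = θ - π := ⟨_, rfl⟩
  have hθ : θ = t + π := by linarith
  have ht0 : 0 ≤ t := by linarith
  have htω : t < ω := by linarith
  have hst : 0 ≤ sin t := sin_nonneg_of_nonneg_of_le_pi ht0 (by linarith [pi_pos])
  have hct : 0 < cos t := cos_pos_of_mem_Ioo ⟨by linarith [pi_pos], by linarith⟩
  have hsθ : sin θ = -sin t := by rw [hθ, sin_add_pi]
  have hcθ : cos θ = -cos t := by rw [hθ, cos_add_pi]
  have hφ : sin (θ - ω) = cos t * sin ω - sin t * cos ω := by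
    rw [sin_sub, hsθ, hcθ]; ring
  have hφle : sin (θ - ω) ≤ cos t * sin ω := by
    rw [hφ]; nlinarith [mul_nonneg hst hcω]
  have hs1 : sin t ^ 2 ≤ 1 := by nlinarith [sin_sq_add_cos_sq t, sq_nonneg (cos t)]
  have hN : NN K ω θ = -(K * sin t ^ 3 * cos ω + cos t ^ 3 * sin ω) := by
    unfold NN; rw [hsθ, hcθ]; ring
  have hp : 0 < g2 K θ ^ 2 * sin (θ - ω) := by positivity
  have hA : A1 K θ ^ 2 * (g2 K θ ^ 2 * sin (θ - ω)) =
      (1 - K) ^ 2 * sin t ^ 2 * cos t ^ 2 * sin (θ - ω) := by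
    unfold A1
    rw [hsθ, hcθ]
    field_simp
  have h1K : 0 < 1 - K := by linarith
  have hmain : A1 K θ ^ 2 * (g2 K θ ^ 2 * sin (θ - ω)) <
      4 * S K ω θ * (g2 K θ ^ 2 * sin (θ - ω)) := by
    rw [hA, mul_assoc 4, h, hN]
    have e1 : (1 - K) ^ 2 * sin t ^ 2 * cos t ^ 2 * sin (θ - ω) ≤
        (1 - K) * (1 * 1 * cos t ^ 2 * (cos t * sin ω)) := by
      have : (1 - K) ^ 2 * sin t ^ 2 * cos t ^ 2 * sin (θ - ω) =
        (1 - K) * ((1 - K) * sin t ^ 2 * cos t ^ 2 * sin (θ - ω)) := by ring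
      rw [this]
      have hK1' : 1 - K ≤ 1 := by linarith
      gcongr
    have e2 : 0 < (1 - K) * (cos t ^ 3 * sin ω) := by positivity
    have e3 : 0 ≤ (1 - K) * (K * sin t ^ 3 * cos ω) := by positivity
    nlinarith [e1, e2, e3]
  exact lt_of_mul_lt_mul_right hmain hp.le

lemma Phi_pos_right {K ω ε θ : ℝ} (hK : 0 < K) (hK1 : K < 1) (hω : 0 ≤ ω) (hω2 : ω ≤ π / 2)
    (h1 : π ≤ θ) (h2 : θ < ω + π) : 0 < Phi K ω ε θ := by
  have h := four_S_gt hK hK1 hω hω2 h1 h2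
  unfold Phi
  nlinarith [sq_nonneg (Nn ω ε θ + A1 K θ / 2)]

/-- The value of `Λ` modulo `Φ`. -/
lemma Lam_eq {K ω ε θ : ℝ} (hK : 0 < K) (hs : sin θ ≠ 0) :
    Lam K ω ε θ = (Y ω θ - cos θ / sin θ) *
        (Nn ω ε θ ^ 2 + (1 - K) * cos θ ^ 2 / g2 K θ)
      - kp K θ * (1 - K) * sin θ ^ 2 * (Nn ω ε θ + A1 K θ)
      + cos θ / sin θ * Phi K ω ε θ := by
  have hg := g2_pos hK θ
  unfold Lam Phi S kp A1
  have hsc := sin_sq_add_cos_sq θ
  have hg2 : g2 K θ = 1 - (1 - K) * sin θ ^ 2 := g2_eq K θ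
  have hc2 : cos θ ^ 2 = 1 - sin θ ^ 2 := by linarith
  generalize Nn ω ε θ = n
  generalize Y ω θ = y
  field_simp
  generalize g2 K θ = g at *
  generalize sin θ = s at *
  generalize cos θ = c at *
  have hc3 : c ^ 3 = c * (1 - s ^ 2) := by rw [← hc2]; ring
  subst hg2
  ring_nf
  rw [hc3, hc2]
  ring

lemma cos_div_sin_le_Y {ω θ : ℝ} (hω : 0 ≤ ω) (_hω2 : ω ≤ π / 2) (h1 : ω < θ) (h2 : θ < π) :
    cos θ / sin θ ≤ Y ω θ := by
  have hs : 0 < sin (θ - ω) := sin_phi_pos h1 (by linarith [pi_pos])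
  have hs2 : 0 < sin θ := sin_pos_of_pos_of_lt_pi (by linarith) h2
  have hsω : 0 ≤ sin ω := sin_nonneg_of_nonneg_of_le_pi hω (by linarith [pi_pos])
  unfold Y
  rw [div_le_div_iff₀ hs2 hs]
  have h3 : sin (θ - (θ - ω)) = sin θ * cos (θ - ω) - cos θ * sin (θ - ω) := by rw [sin_sub]
  rw [show θ - (θ - ω) = ω by ring] at h3
  linarith

/-- At a zero of `Φ` with `n < 0` and `θ ∈ (ω, π)` we have `0 < Λ`. -/
lemma Lam_pos_of_neg {K ω ε θ : ℝ} (hK : 0 < K) (hK1 : K < 1) (hω : 0 ≤ ω) (hω2 : ω ≤ π / 2)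
    (h1 : ω < θ) (h2 : θ < π) (hn : Nn ω ε θ < 0) (hP : Phi K ω ε θ = 0) :
    0 < Lam K ω ε θ := by
  have hs : 0 < sin (θ - ω) := sin_phi_pos h1 (by linarith [pi_pos])
  have hs2 : 0 < sin θ := sin_pos_of_pos_of_lt_pi (by linarith) h2
  have hg := g2_pos hK θ
  have hκ := kp_pos hK θ
  have h1K : 0 < 1 - K := by linarith
  rw [Lam_eq hK hs2.ne', hP, mul_zero, add_zero]
  have hY := cos_div_sin_le_Y hω hω2 h1 h2
  have e1 : 0 ≤ (Y ω θ - cos θ / sin θ) * (Nn ω ε θ ^ 2 + (1 - K) * cos θ ^ 2 / g2 K θ) :=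
    mul_nonneg (by linarith) (by positivity)
  have e2 : Nn ω ε θ + A1 K θ < 0 := by
    rcases le_or_gt (A1 K θ) 0 with hA | hA
    · linarith
    · -- θ < π/2
      have hc : 0 < cos θ := by
        by_contra hc
        rw [not_lt] at hc
        have : A1 K θ ≤ 0 := by
          unfold A1
          apply div_nonpos_of_nonpos_of_nonneg _ hg.le
          have : 0 ≤ (1 - K) * sin θ * (-cos θ) := by
            apply mul_nonneg (by positivity) (by linarith)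
          linarith
        linarith
      have hsω : 0 ≤ sin ω := sin_nonneg_of_nonneg_of_le_pi hω (by linarith [pi_pos])
      have hcω : 0 ≤ cos ω := cos_nonneg_of_mem_Icc ⟨by linarith, hω2⟩
      have hN : 0 < NN K ω θ := by
        unfold NN
        have := sin_sq_add_cos_sq ω
        rcases eq_or_lt_of_le hsω with h0 | h0
        · rw [← h0] at this ⊢
          have hc1 : 0 < cos ω := by
            rcases eq_or_lt_of_le hcω with h5 | h5
            · rw [← h5] at this; norm_num at this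
            · exact h5
          positivity
        · have : 0 ≤ K * sin θ ^ 3 * cos ω := by positivity
          have : 0 < cos θ ^ 3 * sin ω := by positivity
          linarith
      have hS := (S_neg_iff hK hK1 hs).2 hN
      have h3 : Nn ω ε θ * (Nn ω ε θ + A1 K θ) = - S K ω θ := by
        unfold Phi at hP
        linarith
      by_contra hge
      rw [not_lt] at hge
      have : Nn ω ε θ * (Nn ω ε θ + A1 K θ) ≤ 0 := mul_nonpos_of_nonpos_of_nonneg hn.le hge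
      linarith
  have e3 : 0 < kp K θ * (1 - K) * sin θ ^ 2 * -(Nn ω ε θ + A1 K θ) := by
    apply mul_pos (by positivity) (by linarith)
  linarith

lemma Nn_neg {ω ε θ : ℝ} (hε : -1 < ε) (hε0 : ε < 0) (hs : 0 < sin (θ - ω)) :
    Nn ω ε θ < 0 := by
  unfold Nn
  exact div_neg_of_neg_of_pos (mul_neg_of_neg_of_pos hε0 hs) (U_pos hε (by linarith) ω θ)

lemma Nn_pos {ω ε θ : ℝ} (hε : 0 < ε) (hε1 : ε < 1) (hs : 0 < sin (θ - ω)) :
    0 < Nn ω ε θ := by
  unfold Nn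
  exact div_pos (mul_pos hε hs) (U_pos (by linarith) hε1 ω θ)

/-- For negative `ε` the function `Φ` has at most one zero on `(ω, ω + π)`. -/
theorem zeros_Phi_neg {K ω ε : ℝ} (hK : 0 < K) (hK1 : K < 1) (hω : 0 ≤ ω) (hω2 : ω ≤ π / 2)
    (hε : -1 < ε) (hε0 : ε < 0) :
    {θ | θ ∈ Ioo ω (ω + π) ∧ Phi K ω ε θ = 0}.Finite ∧
      {θ | θ ∈ Ioo ω (ω + π) ∧ Phi K ω ε θ = 0}.ncard ≤ 1 := by
  apply card_le_one_of
  rintro x ⟨hx, hx0⟩ y ⟨hy, hy0⟩ hxy
  have hypi : y < π := by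
    by_contra h
    rw [not_lt] at h
    have := Phi_pos_right (ε := ε) hK hK1 hω hω2 h hy.2
    linarith
  have h := pos_of_deriv_pos_at_zeros (f := Phi K ω ε)
    (f' := fun θ => (A1 K θ - 2 * Nn ω ε θ - Y ω θ) * Phi K ω ε θ + 3 * Lam K ω ε θ) hxy
    (fun z hz => hasDerivAt_Phi hK (U_pos hε (by linarith) ω z).ne'
      (sin_phi_pos (by linarith [hz.1, hx.1]) (by linarith [hz.2, hy.2])).ne')
    (fun z hz hz0 => by
      have hz1 : ω < z := by linarith [hz.1, hx.1]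
      have hz2 : z < π := by linarith [hz.2]
      have := Lam_pos_of_neg hK hK1 hω hω2 hz1 hz2
        (Nn_neg hε hε0 (sin_phi_pos hz1 (by linarith [hz.2, hy.2]))) hz0
      simp only [hz0, mul_zero, zero_add]
      linarith) hx0.ge
  linarith

end Pool.Agent.Helper75x.CE
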