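import Pool.Agent.Helper75x.CE.CoreA

/-! The zeros of `Φ` for positive `ε`: at most three. -/

set_option autoImplicit false
open Set Real

namespace Pool.Agent.Helper75x.CE

/-- The positive root of `n² + A1 n + S = 0` when `S < 0`. -/
noncomputable def nh (K ω θ : ℝ) : ℝ := (-A1 K θ + √(A1 K θ ^ 2 - 4 * S K ω θ)) / 2
noncomputable def Eh (K ω θ : ℝ) : ℝ := cos (θ - ω) + sin (θ - ω) / nh K ω θ
noncomputable def gh (K ω θ : ℝ) : ℝ :=
  nh K ω θ * (1 + nh K ω θ * Y ω θ) - kp K θ * (nh K ω θ + A1 K θ)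

section root
variable {K ω θ : ℝ}

lemma disc_pos (hS : S K ω θ < 0) : 0 < A1 K θ ^ 2 - 4 * S K ω θ := by
  nlinarith [sq_nonneg (A1 K θ)]

lemma abs_A1_lt (hS : S K ω θ < 0) : |A1 K θ| < √(A1 K θ ^ 2 - 4 * S K ω θ) := by
  rw [← sqrt_sq_eq_abs]
  exact sqrt_lt_sqrt (sq_nonneg _) (by linarith)

lemma nh_pos (hS : S K ω θ < 0) : 0 < nh K ω θ := by
  have h := abs_A1_lt hS
  have := le_abs_self (A1 K θ)
  unfold nh
  linarith

lemma nh_add_pos (hS : S K ω θ < 0) : 0 < nh K ω θ + A1 K θ := by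
  have h := abs_A1_lt hS
  have := neg_abs_le (A1 K θ)
  unfold nh
  linarith

lemma nh_root (hS : S K ω θ < 0) : nh K ω θ ^ 2 + A1 K θ * nh K ω θ + S K ω θ = 0 := by
  have h := sq_sqrt (disc_pos hS).le
  unfold nh
  linear_combination h / 4

lemma two_nh (K ω θ : ℝ) : 2 * nh K ω θ + A1 K θ = √(A1 K θ ^ 2 - 4 * S K ω θ) := by
  unfold nh
  ring

lemma two_nh_pos (hS : S K ω θ < 0) : 0 < 2 * nh K ω θ + A1 K θ := by
  linarith [nh_pos hS, nh_add_pos hS]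

lemma hasDerivAt_nh (hK : 0 < K) (hs : sin (θ - ω) ≠ 0) (hS : S K ω θ < 0) :
    HasDerivAt (nh K ω) (-((1 + A1 K θ ^ 2 - kp K θ) * nh K ω θ
      + (-(4 * A1 K θ * kp K θ) - (1 + A1 K θ ^ 2 - kp K θ) * Y ω θ
      + A1 K θ * (1 + Y ω θ ^ 2))) / (2 * nh K ω θ + A1 K θ)) θ := by
  have hA := hasDerivAt_A1 hK θ
  have hS' := hasDerivAt_S (ω := ω) hK hs
  have hA2 : HasDerivAt (fun t => A1 K t ^ 2 - 4 * S K ω t)
      (2 * A1 K θ ^ 1 * (1 + A1 K θ ^ 2 - kp K θ) - 4 * (-(4 * A1 K θ * kp K θ)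
        - (1 + A1 K θ ^ 2 - kp K θ) * Y ω θ + A1 K θ * (1 + Y ω θ ^ 2))) θ :=
    (hA.pow 2).sub (hS'.const_mul 4)
  have h2 := (hA.neg.add (hA2.sqrt (disc_pos hS).ne')).div_const 2
  have h3 := two_nh_pos hS
  refine h2.congr_deriv ?_
  rw [← two_nh]
  field_simp
  ring

lemma Eh_deriv (hK : 0 < K) (hs : sin (θ - ω) ≠ 0) (hS : S K ω θ < 0) :
    HasDerivAt (Eh K ω)
      (3 * sin (θ - ω) * gh K ω θ / (nh K ω θ ^ 2 * (2 * nh K ω θ + A1 K θ))) θ := by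
  have h0 : HasDerivAt (fun t : ℝ => t - ω) 1 θ := (hasDerivAt_id θ).sub_const ω
  have hn := nh_pos hS
  have h3 := two_nh_pos hS
  have h2 := h0.cos.add (h0.sin.div (hasDerivAt_nh hK hs hS) hn.ne')
  refine h2.congr_deriv ?_
  have hr := nh_root hS
  have hc : cos (θ - ω) = Y ω θ * sin (θ - ω) := by unfold Y; field_simp
  rw [hc]
  unfold gh
  unfold S at hr
  clear h2 hc
  generalize nh K ω θ = n at *
  generalize A1 K θ = a at *
  generalize kp K θ = k at *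
  generalize Y ω θ = y at *
  generalize sin (θ - ω) = s at *
  obtain ⟨X, hX⟩ : ∃ X, X = -((1 + a ^ 2 - k) * n + (-(4 * a * k) - (1 + a ^ 2 - k) * y +
    a * (1 + y ^ 2))) / (2 * n + a) := ⟨_, rfl⟩
  rw [← hX]
  rw [eq_div_iff h3.ne'] at hX
  rw [eq_div_iff (by positivity)]
  field_simp
  linear_combination (-1) * hX + (a - 2 * n - y) * hr

lemma gh_differentiable (hK : 0 < K) (hs : sin (θ - ω) ≠ 0) (hS : S K ω θ < 0) :
    HasDerivAt (gh K ω) (deriv (gh K ω) θ) θ ∧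
      (gh K ω θ = 0 → deriv (gh K ω) θ =
        -(5 * A1 K θ * kp K θ * (nh K ω θ + A1 K θ))) := by
  have hn := hasDerivAt_nh hK hs hS
  have h3 := two_nh_pos hS
  have hA := hasDerivAt_A1 hK θ
  have hk := hasDerivAt_kp hK θ
  have hY := hasDerivAt_Y hs
  have h2 := (hn.mul ((hn.mul hY).const_add 1)).sub (hk.mul (hn.add hA))
  have h2' : HasDerivAt (gh K ω) _ θ := h2
  refine ⟨h2'.differentiableAt.hasDerivAt, ?_⟩
  intro h0
  rw [h2'.deriv]
  have hr := nh_root hS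
  unfold gh at h0
  unfold S at hr
  simp only [Pi.mul_apply, Pi.add_apply]
  -- the derivative of `nh` at a zero of `gh`
  have hn' : -((1 + A1 K θ ^ 2 - kp K θ) * nh K ω θ
      + (-(4 * A1 K θ * kp K θ) - (1 + A1 K θ ^ 2 - kp K θ) * Y ω θ
      + A1 K θ * (1 + Y ω θ ^ 2))) / (2 * nh K ω θ + A1 K θ)
      = nh K ω θ * Y ω θ - nh K ω θ ^ 2 := by
    rw [div_eq_iff h3.ne']
    linear_combination (-3) * h0 - (A1 K θ - 2 * nh K ω θ - Y ω θ) * hr
  rw [hn']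
  generalize nh K ω θ = n at *
  generalize A1 K θ = a at *
  generalize kp K θ = k at *
  generalize Y ω θ = y at *
  linear_combination (y - 2 * n) * h0 - k * hr

end root

section global
variable {K ω : ℝ}

lemma A1_pos {θ : ℝ} (hK : 0 < K) (hK1 : K < 1) (h1 : 0 < θ) (h2 : θ < π / 2) :
    0 < A1 K θ := by
  have hs : 0 < sin θ := sin_pos_of_pos_of_lt_pi h1 (by linarith [pi_pos])
  have hc : 0 < cos θ := cos_pos_of_mem_Ioo ⟨by linarith, h2⟩
  have hg := g2_pos hK θ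
  have h1K : 0 < 1 - K := by linarith
  unfold A1
  positivity

lemma A1_neg {θ : ℝ} (hK : 0 < K) (hK1 : K < 1) (h1 : π / 2 < θ) (h2 : θ < π) :
    A1 K θ < 0 := by
  have hs : 0 < sin θ := sin_pos_of_pos_of_lt_pi (by linarith [pi_pos]) h2
  have hc : cos θ < 0 := cos_neg_of_pi_div_two_lt_of_lt h1 (by linarith)
  have hg := g2_pos hK θ
  have h1K : 0 < 1 - K := by linarith
  unfold A1
  exact div_neg_of_neg_of_pos (mul_neg_of_pos_of_neg (by positivity) hc) hg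

lemma NN_pos_left {θ : ℝ} (hK : 0 < K) (hω : 0 < ω) (hω2 : ω < π / 2) (h1 : 0 < θ)
    (h2 : θ ≤ π / 2) : 0 < NN K ω θ := by
  have hs : 0 < sin θ := sin_pos_of_pos_of_lt_pi h1 (by linarith [pi_pos])
  have hc : 0 ≤ cos θ := cos_nonneg_of_mem_Icc ⟨by linarith, h2⟩
  have hsω : 0 < sin ω := sin_pos_of_pos_of_lt_pi hω (by linarith [pi_pos])
  have hcω : 0 < cos ω := cos_pos_of_mem_Ioo ⟨by linarith, hω2⟩
  unfold NN
  have : 0 ≤ cos θ ^ 3 * sin ω := by positivity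
  have : 0 < K * sin θ ^ 3 * cos ω := by positivity
  linarith

lemma NN_anti {x y : ℝ} (hK : 0 < K) (hω : 0 < ω) (hω2 : ω < π / 2) (h1 : π / 2 ≤ x)
    (hxy : x < y) (h2 : y ≤ π) : NN K ω y < NN K ω x := by
  have hsω : 0 < sin ω := sin_pos_of_pos_of_lt_pi hω (by linarith [pi_pos])
  have hcω : 0 < cos ω := cos_pos_of_mem_Ioo ⟨by linarith, hω2⟩
  have hsx : 0 ≤ sin y := sin_nonneg_of_nonneg_of_le_pi (by linarith [pi_pos]) h2
  have hss : sin y ≤ sin x := by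
    have h3 : sin (π - y) ≤ sin (π - x) :=
      sin_le_sin_of_le_of_le_pi_div_two (by linarith) (by linarith) (by linarith)
    rwa [sin_pi_sub, sin_pi_sub] at h3
  have hcc : cos y < cos x := cos_lt_cos_of_nonneg_of_le_pi (by linarith [pi_pos]) h2 hxy
  have h4 : sin y ^ 3 ≤ sin x ^ 3 := pow_le_pow_left₀ hsx hss 3
  have h5 : cos y ^ 3 < cos x ^ 3 := Odd.strictMono_pow (by decide) hcc
  unfold NN
  have h6 : K * sin y ^ 3 * cos ω ≤ K * sin x ^ 3 * cos ω := by gcongr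
  have h7 : cos y ^ 3 * sin ω < cos x ^ 3 * sin ω := by gcongr
  linarith

lemma NN_neg_right {θ : ℝ} (hK : 0 < K) (hω : 0 < ω) (hω2 : ω < π / 2) (h1 : π ≤ θ)
    (h2 : θ < ω + π) : NN K ω θ < 0 := by
  have hsω : 0 < sin ω := sin_pos_of_pos_of_lt_pi hω (by linarith [pi_pos])
  have hcω : 0 < cos ω := cos_pos_of_mem_Ioo ⟨by linarith, hω2⟩
  obtain ⟨t, ht⟩ : ∃ t, t = θ - π := ⟨_, rfl⟩
  have hθ : θ = t + π := by linarith
  have hst : 0 ≤ sin t := sin_nonneg_of_nonneg_of_le_pi (by linarith) (by linarith [pi_pos])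
  have hct : 0 < cos t := cos_pos_of_mem_Ioo ⟨by linarith [pi_pos], by linarith⟩
  have hN : NN K ω θ = -(K * sin t ^ 3 * cos ω + cos t ^ 3 * sin ω) := by
    unfold NN; rw [hθ, sin_add_pi, cos_add_pi]; ring
  rw [hN]
  have : 0 < K * sin t ^ 3 * cos ω + cos t ^ 3 * sin ω := by positivity
  linarith

/-- `S < 0` propagates to the left. -/
lemma S_seg {x y : ℝ} (hK : 0 < K) (hK1 : K < 1) (hω : 0 < ω) (hω2 : ω < π / 2)
    (hx : ω < x) (hxy : x ≤ y) (hy : y < ω + π) (hS : S K ω y < 0) : S K ω x < 0 := by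
  rcases eq_or_lt_of_le hxy with h | hxy
  · rwa [h]
  have hsx : 0 < sin (x - ω) := sin_phi_pos hx (by linarith)
  have hsy : 0 < sin (y - ω) := sin_phi_pos (by linarith) hy
  rw [S_neg_iff hK hK1 hsx]
  rw [S_neg_iff hK hK1 hsy] at hS
  rcases le_or_gt x (π / 2) with h | h
  · exact NN_pos_left hK hω hω2 (by linarith) h
  · rcases lt_or_ge π y with h' | h'
    · linarith [NN_neg_right hK hω hω2 h'.le hy]
    · exact hS.trans (NN_anti hK hω hω2 h.le hxy h')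

lemma inv_eps {ε θ : ℝ} (hε : 0 < ε) (hε1 : ε < 1) (hs : 0 < sin (θ - ω)) :
    1 / ε = cos (θ - ω) + sin (θ - ω) / Nn ω ε θ := by
  have hU := U_pos (by linarith) hε1 ω θ
  unfold Nn
  field_simp
  unfold U
  ring

lemma Eh_sub {ε θ : ℝ} (hε : 0 < ε) (hε1 : ε < 1) (hs : 0 < sin (θ - ω))
    (hS : S K ω θ < 0) :
    Eh K ω θ - 1 / ε = Phi K ω ε θ * (sin (θ - ω) /
      (nh K ω θ * Nn ω ε θ * (Nn ω ε θ + (nh K ω θ + A1 K θ)))) := by
  have hn := nh_pos hS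
  have hn2 := nh_add_pos hS
  have hN := Nn_pos hε hε1 hs
  have hr := nh_root hS
  rw [inv_eps hε hε1 hs]
  unfold Eh Phi
  have h3 : 0 < Nn ω ε θ + (nh K ω θ + A1 K θ) := by linarith
  generalize nh K ω θ = n at *
  generalize Nn ω ε θ = m at *
  rw [← sub_eq_zero]
  field_simp
  linear_combination (-sin (θ - ω)) * hr

lemma Phi_zero_iff {ε θ : ℝ} (hε : 0 < ε) (hε1 : ε < 1) (hs : 0 < sin (θ - ω))
    (hS : S K ω θ < 0) (h : Phi K ω ε θ = 0) : Eh K ω θ = 1 / ε ∧ Nn ω ε θ = nh K ω θ := by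
  have h1 := Eh_sub hε hε1 hs hS
  rw [h, zero_mul] at h1
  refine ⟨by linarith, ?_⟩
  have hn := nh_pos hS
  have hn2 := nh_add_pos hS
  have hN := Nn_pos hε hε1 hs
  have hr := nh_root hS
  unfold Phi at h
  have h3 : (Nn ω ε θ - nh K ω θ) * (Nn ω ε θ + (nh K ω θ + A1 K θ)) = 0 := by
    linear_combination h - hr
  rcases mul_eq_zero.1 h3 with h4 | h4
  · linarith
  · linarith

/-- At a zero of `Φ` with `S < 0`, `Λ` equals `gh`. -/
lemma Lam_eq_gh {ε θ : ℝ} (hε : 0 < ε) (hε1 : ε < 1) (hs : 0 < sin (θ - ω))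
    (hS : S K ω θ < 0) (h : Phi K ω ε θ = 0) : Lam K ω ε θ = gh K ω θ := by
  have h1 := (Phi_zero_iff hε hε1 hs hS h).2
  unfold Lam gh
  rw [h1]

/-- At a zero of `Φ` with `S ≥ 0` and `θ ∈ (π/2, π)`, `Λ > 0`. -/
lemma Lam_pos_of_S_nonneg {ε θ : ℝ} (hK : 0 < K) (hε : 0 < ε) (hε1 : ε < 1)
    (hs : 0 < sin (θ - ω)) (hS : 0 ≤ S K ω θ) (h : Phi K ω ε θ = 0) :
    0 < Lam K ω ε θ := by
  have hN := Nn_pos hε hε1 hs
  have hU := U_pos (by linarith) hε1 ω θ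
  have h1 := one_add_Nn_Y hU.ne' hs.ne'
  have hκ := kp_pos hK θ
  have h2 : Nn ω ε θ + A1 K θ ≤ 0 := by
    by_contra hc
    rw [not_le] at hc
    have h3 := mul_pos hN hc
    unfold Phi at h
    nlinarith
  unfold Lam
  rw [h1]
  have h4 : 0 < Nn ω ε θ * (1 / U ω ε θ) := by positivity
  nlinarith [mul_nonneg hκ.le (neg_nonneg.2 h2)]

lemma gh_neg_prop {z t : ℝ} (hK : 0 < K) (hK1 : K < 1) (hω : 0 < ω) (hω2 : ω < π / 2)
    (hz : ω < z) (hzt : z < t) (ht : t < π / 2) (h : gh K ω z ≤ 0) : gh K ω t < 0 := by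
  have hfacts : ∀ x ∈ Icc z t, 0 < sin (x - ω) ∧ S K ω x < 0 := by
    intro x hx
    have hs : 0 < sin (x - ω) := sin_phi_pos (by linarith [hx.1]) (by linarith [hx.2, pi_pos])
    exact ⟨hs, (S_neg_iff hK hK1 hs).2
      (NN_pos_left hK hω hω2 (by linarith [hx.1]) (by linarith [hx.2]))⟩
  refine neg_of_deriv_neg_at_zeros (f' := deriv (gh K ω)) hzt ?_ ?_ h
  · intro x hx
    exact (gh_differentiable hK (hfacts x hx).1.ne' (hfacts x hx).2).1
  · intro x hx h0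
    rw [(gh_differentiable hK (hfacts x hx).1.ne' (hfacts x hx).2).2 h0]
    have h1 := A1_pos hK hK1 (θ := x) (by linarith [hx.1]) (by linarith [hx.2])
    have h2 := kp_pos hK x
    have h3 := nh_add_pos (hfacts x hx).2
    have : 0 < 5 * A1 K x * kp K x * (nh K ω x + A1 K x) := by positivity
    linarith

lemma gh_pos_prop {z t : ℝ} (hK : 0 < K) (hK1 : K < 1) (hω : 0 < ω) (hω2 : ω < π / 2)
    (hz : π / 2 < z) (hzt : z < t) (ht : t < π) (hS : S K ω t < 0) (h : 0 ≤ gh K ω z) :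
    0 < gh K ω t := by
  have hfacts : ∀ x ∈ Icc z t, 0 < sin (x - ω) ∧ S K ω x < 0 := by
    intro x hx
    have hs : 0 < sin (x - ω) := sin_phi_pos (by linarith [hx.1]) (by linarith [hx.2, pi_pos])
    exact ⟨hs, S_seg hK hK1 hω hω2 (by linarith [hx.1]) hx.2 (by linarith) hS⟩
  refine pos_of_deriv_pos_at_zeros (f' := deriv (gh K ω)) hzt ?_ ?_ h
  · intro x hx
    exact (gh_differentiable hK (hfacts x hx).1.ne' (hfacts x hx).2).1
  · intro x hx h0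
    rw [(gh_differentiable hK (hfacts x hx).1.ne' (hfacts x hx).2).2 h0]
    have h1 := A1_neg hK hK1 (θ := x) (by linarith [hx.1]) (by linarith [hx.2])
    have h2 := kp_pos hK x
    have h3 := nh_add_pos (hfacts x hx).2
    have : 0 < 5 * (-A1 K x) * kp K x * (nh K ω x + A1 K x) := by
      have : 0 < -A1 K x := by linarith
      positivity
    linarith

/-- Two zeros of `Φ` in `(π/2, π)` are impossible if `Λ > 0` at each zero between them. -/
lemma no_two_zeros {ε z₀ z₁ : ℝ} (hK : 0 < K) (hε : 0 < ε) (hε1 : ε < 1)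
    (hz0 : ω < z₀) (hz : z₀ < z₁) (hz1 : z₁ < ω + π)
    (hP0 : Phi K ω ε z₀ = 0) (hP1 : Phi K ω ε z₁ = 0)
    (hL : ∀ z ∈ Icc z₀ z₁, Phi K ω ε z = 0 → 0 < Lam K ω ε z) : False := by
  have h := pos_of_deriv_pos_at_zeros (f := Phi K ω ε)
    (f' := fun θ => (A1 K θ - 2 * Nn ω ε θ - Y ω θ) * Phi K ω ε θ + 3 * Lam K ω ε θ) hz
    (fun z hz => hasDerivAt_Phi hK (U_pos (by linarith) hε1 ω z).ne'
      (sin_phi_pos (by linarith [hz.1]) (by linarith [hz.2])).ne')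
    (fun z hz hz0 => by
      have := hL z hz hz0
      simp only [hz0, mul_zero, zero_add]
      linarith) hP0.ge
  linarith

lemma Eh_rolle {x y : ℝ} (hK : 0 < K) (hK1 : K < 1) (hω : 0 < ω) (hω2 : ω < π / 2)
    (hx : ω < x) (hxy : x < y) (hy : y < ω + π) (hS : S K ω y < 0)
    (hE : Eh K ω x = Eh K ω y) : ∃ c ∈ Ioo x y, gh K ω c = 0 := by
  have hfacts : ∀ t ∈ Icc x y, 0 < sin (t - ω) ∧ S K ω t < 0 := by
    intro t ht
    exact ⟨sin_phi_pos (by linarith [ht.1]) (by linarith [ht.2]),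
      S_seg hK hK1 hω hω2 (by linarith [ht.1]) ht.2 hy hS⟩
  obtain ⟨c, hc, h0⟩ := exists_hasDerivAt_eq_zero hxy
    (fun t ht => (Eh_deriv hK (hfacts t ht).1.ne' (hfacts t ht).2).continuousAt.continuousWithinAt)
    hE (fun t ht => Eh_deriv hK (hfacts t ⟨ht.1.le, ht.2.le⟩).1.ne' (hfacts t ⟨ht.1.le, ht.2.le⟩).2)
  refine ⟨c, hc, ?_⟩
  have hc' := hfacts c ⟨hc.1.le, hc.2.le⟩
  have h1 := nh_pos hc'.2
  have h2 := two_nh_pos hc'.2
  have h3 := hc'.1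
  rw [div_eq_zero_iff] at h0
  rcases h0 with h0 | h0
  · rcases mul_eq_zero.1 h0 with h4 | h4
    · exfalso; have : 0 < 3 * sin (c - ω) := by positivity
      linarith
    · exact h4
  · exfalso
    have : 0 < nh K ω c ^ 2 * (2 * nh K ω c + A1 K c) := by positivity
    linarith

lemma Eh_decr {x y : ℝ} (hK : 0 < K) (hK1 : K < 1) (hω : 0 < ω) (hω2 : ω < π / 2)
    (hx : ω < x) (hxy : x < y) (hy : y < ω + π) (hS : S K ω y < 0)
    (hg : ∀ t ∈ Ioo x y, gh K ω t < 0) : Eh K ω y < Eh K ω x := by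
  have hfacts : ∀ t ∈ Icc x y, 0 < sin (t - ω) ∧ S K ω t < 0 := by
    intro t ht
    exact ⟨sin_phi_pos (by linarith [ht.1]) (by linarith [ht.2]),
      S_seg hK hK1 hω hω2 (by linarith [ht.1]) ht.2 hy hS⟩
  obtain ⟨c, hc, h0⟩ := exists_hasDerivAt_eq_slope (Eh K ω) _ hxy
    (fun t ht => (Eh_deriv hK (hfacts t ht).1.ne' (hfacts t ht).2).continuousAt.continuousWithinAt)
    (fun t ht => Eh_deriv hK (hfacts t ⟨ht.1.le, ht.2.le⟩).1.ne' (hfacts t ⟨ht.1.le, ht.2.le⟩).2)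
  have hc' := hfacts c ⟨hc.1.le, hc.2.le⟩
  have h1 := nh_pos hc'.2
  have h2 := two_nh_pos hc'.2
  have h3 := hc'.1
  have h4 := hg c hc
  have h5 : 3 * sin (c - ω) * gh K ω c / (nh K ω c ^ 2 * (2 * nh K ω c + A1 K c)) < 0 := by
    apply div_neg_of_neg_of_pos
    · exact mul_neg_of_pos_of_neg (by positivity) h4
    · positivity
  rw [h0] at h5
  by_contra hge
  rw [not_lt] at hge
  have : 0 ≤ (Eh K ω y - Eh K ω x) / (y - x) := div_nonneg (by linarith) (by linarith)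
  linarith

/-- For positive `ε` the function `Φ` has at most three zeros on `(ω, ω + π)`. -/
theorem zeros_Phi_pos {ε : ℝ} (hK : 0 < K) (hK1 : K < 1) (hω : 0 < ω) (hω2 : ω < π / 2)
    (hε : 0 < ε) (hε1 : ε < 1) :
    {θ | θ ∈ Ioo ω (ω + π) ∧ Phi K ω ε θ = 0}.Finite ∧
      {θ | θ ∈ Ioo ω (ω + π) ∧ Phi K ω ε θ = 0}.ncard ≤ 3 := by
  apply card_le_three_of
  rintro z₁ ⟨hz1, h1⟩ z₂ ⟨hz2, h2⟩ z₃ ⟨hz3, h3⟩ z₄ ⟨hz4, h4⟩ h12 h23 h34
  have hs : ∀ {x}, ω < x → x < ω + π → 0 < sin (x - ω) := fun hx hx' => sin_phi_pos hx hx'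
  have h4pi : z₄ < π := by
    by_contra h
    rw [not_lt] at h
    have := Phi_pos_right (ε := ε) hK hK1 hω.le hω2.le h hz4.2
    linarith
  -- the first key fact
  have hS3 : π / 2 < z₃ → S K ω z₃ < 0 := by
    intro hz
    by_contra hS
    rw [not_lt] at hS
    apply no_two_zeros hK hε hε1 hz3.1 h34 hz4.2 h3 h4
    intro z hz' hz0
    apply Lam_pos_of_S_nonneg hK hε hε1 (hs (by linarith [hz'.1, hz3.1]) (by linarith [hz'.2])) _ hz0
    by_contra hSz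
    rw [not_le] at hSz
    have := S_seg hK hK1 hω hω2 hz3.1 hz'.1 (by linarith [hz'.2]) hSz
    linarith
  -- the second key fact
  have hkey : ∀ x₀, π / 2 < x₀ → x₀ < z₃ → 0 ≤ gh K ω x₀ → False := by
    intro x₀ hx hx3 hg
    apply no_two_zeros hK hε hε1 hz3.1 h34 hz4.2 h3 h4
    intro z hz' hz0
    have hsz := hs (x := z) (by linarith [hz'.1, hz3.1]) (by linarith [hz'.2])
    rcases lt_or_ge (S K ω z) 0 with hSz | hSz
    · rw [Lam_eq_gh hε hε1 hsz hSz hz0]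
      exact gh_pos_prop hK hK1 hω hω2 hx (by linarith [hz'.1]) (by linarith [hz'.2]) hSz hg
    · exact Lam_pos_of_S_nonneg hK hε hε1 hsz hSz hz0
  rcases le_or_gt z₃ (π / 2) with hA | hA
  · -- all of `z₁, z₂, z₃` in `(ω, π/2]`
    have hSz3 : S K ω z₃ < 0 := (S_neg_iff hK hK1 (hs hz3.1 hz3.2)).2
      (NN_pos_left hK hω hω2 (by linarith [hz3.1]) hA)
    have hSz2 := S_seg hK hK1 hω hω2 hz2.1 h23.le hz3.2 hSz3
    have hSz1 := S_seg hK hK1 hω hω2 hz1.1 h12.le hz2.2 hSz2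
    have e1 := (Phi_zero_iff hε hε1 (hs hz1.1 hz1.2) hSz1 h1).1
    have e2 := (Phi_zero_iff hε hε1 (hs hz2.1 hz2.2) hSz2 h2).1
    have e3 := (Phi_zero_iff hε hε1 (hs hz3.1 hz3.2) hSz3 h3).1
    obtain ⟨c1, hc1, hg1⟩ := Eh_rolle hK hK1 hω hω2 hz1.1 h12 hz2.2 hSz2 (e1.trans e2.symm)
    obtain ⟨c2, hc2, hg2⟩ := Eh_rolle hK hK1 hω hω2 hz2.1 h23 hz3.2 hSz3 (e2.trans e3.symm)
    have := gh_neg_prop hK hK1 hω hω2 (z := c1) (t := c2) (by linarith [hc1.1, hz1.1])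
      (by linarith [hc1.2, hc2.1]) (by linarith [hc2.2]) hg1.le
    linarith
  · have hSz3 := hS3 hA
    have hSz2 := S_seg hK hK1 hω hω2 hz2.1 h23.le hz3.2 hSz3
    have hSz1 := S_seg hK hK1 hω hω2 hz1.1 h12.le hz2.2 hSz2
    have e1 := (Phi_zero_iff hε hε1 (hs hz1.1 hz1.2) hSz1 h1).1
    have e2 := (Phi_zero_iff hε hε1 (hs hz2.1 hz2.2) hSz2 h2).1
    have e3 := (Phi_zero_iff hε hε1 (hs hz3.1 hz3.2) hSz3 h3).1
    rcases le_or_gt (π / 2) z₂ with hB | hB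
    · obtain ⟨c2, hc2, hg2⟩ := Eh_rolle hK hK1 hω hω2 hz2.1 h23 hz3.2 hSz3 (e2.trans e3.symm)
      exact hkey c2 (by linarith [hc2.1]) hc2.2 hg2.ge
    · obtain ⟨c1, hc1, hg1⟩ := Eh_rolle hK hK1 hω hω2 hz1.1 h12 hz2.2 hSz2 (e1.trans e2.symm)
      have hSpi : S K ω (π / 2) < 0 := (S_neg_iff hK hK1 (hs hω2 (by linarith [pi_pos]))).2
        (NN_pos_left hK hω hω2 (by linarith [pi_pos]) le_rfl)
      have d1 : Eh K ω (π / 2) < Eh K ω z₂ := by
        apply Eh_decr hK hK1 hω hω2 hz2.1 hB (by linarith [pi_pos]) hSpi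
        intro t ht
        exact gh_neg_prop hK hK1 hω hω2 (z := c1) (by linarith [hc1.1, hz1.1])
          (by linarith [hc1.2, ht.1]) ht.2 hg1.le
      have d2 : Eh K ω z₃ < Eh K ω (π / 2) := by
        apply Eh_decr hK hK1 hω hω2 hω2 hA hz3.2 hSz3
        intro t ht
        by_contra hge
        rw [not_lt] at hge
        exact hkey t ht.1 ht.2 hge
      linarith

end global

end Pool.Agent.Helper75x.CE
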