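import Pool.Agent.Helper75x.CE.CoreB

/-! Counting the solutions of `Ψ² = (v ε)²` on `(ω, ω + π)`. -/

set_option autoImplicit false
open Set Real

namespace Pool.Agent.Helper75x.CE

/-- The solutions. -/
def Zs (K ω ε v : ℝ) : Set ℝ := {θ | θ ∈ Ioo ω (ω + π) ∧ Psi K ω ε θ ^ 2 = (v * ε) ^ 2}

lemma Zs_interleave {K ω ε v : ℝ} (hK : 0 < K) (hε : -1 < ε) (hε1 : ε < 1) (hε0 : ε ≠ 0)
    (hv : 0 < v) {p q : ℕ}
    (hG : {θ | θ ∈ Ioo ω (ω + π) ∧ G K ω ε θ = 0}.Finite ∧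
      {θ | θ ∈ Ioo ω (ω + π) ∧ G K ω ε θ = 0}.ncard ≤ p)
    (hP : {θ | θ ∈ Ioo ω (ω + π) ∧ Phi K ω ε θ = 0}.Finite ∧
      {θ | θ ∈ Ioo ω (ω + π) ∧ Phi K ω ε θ = 0}.ncard ≤ q) :
    (Zs K ω ε v).Finite ∧ (Zs K ω ε v).ncard ≤ p + q + 1 := by
  refine ncard_le_of_interleaved hG hP ?_
  rintro x ⟨hx, hx0⟩ y ⟨hy, hy0⟩ hxy
  have hU : ∀ t, U ω ε t ≠ 0 := fun t => (U_pos hε hε1 ω t).ne'
  have hs : ∀ t ∈ Icc x y, sin (t - ω) ≠ 0 := fun t ht =>
    (sin_phi_pos (by linarith [hx.1, ht.1]) (by linarith [hy.2, ht.2])).ne'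
  have hd : ∀ t ∈ Icc x y, HasDerivAt (Psi K ω ε) _ t := fun t ht => hasDerivAt_Psi hK (hU t) (hs t ht)
  have hcont : ContinuousOn (Psi K ω ε) (Icc x y) := fun t ht =>
    (hd t ht).continuousAt.continuousWithinAt
  have hvε : v * ε ≠ 0 := mul_ne_zero hv.ne' hε0
  by_cases heq : Psi K ω ε x = Psi K ω ε y
  · obtain ⟨c, hc, h0⟩ := exists_hasDerivAt_eq_zero hxy hcont heq
      (fun t ht => hd t ⟨ht.1.le, ht.2.le⟩)
    refine ⟨c, hc, Or.inr ⟨⟨by linarith [hx.1, hc.1], by linarith [hy.2, hc.2]⟩, ?_⟩⟩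
    have h1 := (sin_phi_pos (ω := ω) (θ := c) (by linarith [hx.1, hc.1]) (by linarith [hy.2, hc.2]))
    have h2 := sg_pos hK c
    have h3 := U_pos hε hε1 ω c
    rw [div_eq_zero_iff] at h0
    rcases h0 with h0 | h0
    · rcases mul_eq_zero.1 h0 with h4 | h4
      · exfalso
        have : 0 < U ω ε c ^ 2 * sg K c := by positivity
        linarith
      · exact h4
    · linarith
  · -- opposite values
    have hopp : Psi K ω ε x = - Psi K ω ε y := by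
      have : Psi K ω ε x ^ 2 = Psi K ω ε y ^ 2 := by rw [hx0, hy0]
      rcases sq_eq_sq_iff_eq_or_eq_neg.1 this with h | h
      · exact absurd h heq
      · exact h
    have hyne : Psi K ω ε y ≠ 0 := by
      intro h
      rw [h] at hy0
      exact hvε (by nlinarith [hy0] : v * ε = 0)
    have hz : ∃ c ∈ Ioo x y, Psi K ω ε c = 0 := by
      rcases lt_or_gt_of_ne hyne with h | h
      · have := intermediate_value_Ioo' hxy.le hcont (show (0 : ℝ) ∈ Ioo _ _ from ⟨h, by rw [hopp]; linarith⟩)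
        obtain ⟨c, hc, h0⟩ := this
        exact ⟨c, hc, h0⟩
      · have := intermediate_value_Ioo hxy.le hcont (show (0 : ℝ) ∈ Ioo _ _ from ⟨by rw [hopp]; linarith, h⟩)
        obtain ⟨c, hc, h0⟩ := this
        exact ⟨c, hc, h0⟩
    obtain ⟨c, hc, h0⟩ := hz
    refine ⟨c, hc, Or.inl ⟨⟨by linarith [hx.1, hc.1], by linarith [hy.2, hc.2]⟩, ?_⟩⟩
    unfold Psi at h0
    exact (mul_eq_zero.1 h0).resolve_left (hU c)

/-- `G` has at most two zeros. -/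
lemma zeros_G {K ω ε : ℝ} (hK : 0 < K) (hK1 : K < 1) (hω : 0 < ω) (hω2 : ω < π / 2)
    (hε : -1 < ε) (hε1 : ε < 1) :
    {θ | θ ∈ Ioo ω (ω + π) ∧ G K ω ε θ = 0}.Finite ∧
      {θ | θ ∈ Ioo ω (ω + π) ∧ G K ω ε θ = 0}.ncard ≤ 2 := by
  apply card_le_two_of
  rintro x ⟨hx, hx0⟩ y ⟨hy, hy0⟩ z ⟨hz, hz0⟩ hxy hyz
  have hU : ∀ t, U ω ε t ≠ 0 := fun t => (U_pos hε hε1 ω t).ne'
  have hs : ∀ t, ω < t → t < ω + π → 0 < sin (t - ω) := fun t h1 h2 => sin_phi_pos h1 h2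
  have key : ∀ p q, p < q → ω < p → q < ω + π → G K ω ε p = 0 → G K ω ε q = 0 →
      ∃ c ∈ Ioo p q, NN K ω c = 0 := by
    intro p q hpq hp hq hp0 hq0
    have hd : ∀ t ∈ Icc p q, HasDerivAt (G K ω ε) _ t := fun t ht =>
      hasDerivAt_G hK (hU t) (hs t (by linarith [ht.1]) (by linarith [ht.2])).ne'
    obtain ⟨c, hc, h0⟩ := exists_hasDerivAt_eq_zero hpq
      (fun t ht => (hd t ht).continuousAt.continuousWithinAt) (hp0.trans hq0.symm)
      (fun t ht => hd t ⟨ht.1.le, ht.2.le⟩)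
    refine ⟨c, hc, ?_⟩
    have h1 := hs c (by linarith [hc.1]) (by linarith [hc.2])
    have h2 := sg_pos hK c
    have h3 := U_pos hε hε1 ω c
    have hS : S K ω c = 0 := by
      rw [div_eq_zero_iff] at h0
      rcases h0 with h0 | h0
      · rcases mul_eq_zero.1 h0 with h4 | h4
        · exfalso
          have : 0 < U ω ε c * sg K c := by positivity
          linarith
        · exact h4
      · linarith
    have h4 := S_mul hK h1.ne'
    rw [hS, zero_mul] at h4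
    have : (1 - K) ≠ 0 := by linarith
    have h5 : (1 - K) * NN K ω c = 0 := by linarith
    exact (mul_eq_zero.1 h5).resolve_left this
  obtain ⟨c1, hc1, h1⟩ := key x y hxy hx.1 hy.2 hx0 hy0
  obtain ⟨c2, hc2, h2⟩ := key y z hyz hy.1 hz.2 hy0 hz0
  have loc : ∀ c, ω < c → c < ω + π → NN K ω c = 0 → π / 2 < c ∧ c < π := by
    intro c hc hc' h0
    constructor
    · by_contra hle
      rw [not_lt] at hle
      linarith [NN_pos_left hK hω hω2 (show 0 < c by linarith) hle]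
    · by_contra hge
      rw [not_lt] at hge
      linarith [NN_neg_right hK hω hω2 hge hc']
  have l1 := loc c1 (by linarith [hx.1, hc1.1]) (by linarith [hy.2, hc1.2]) h1
  have l2 := loc c2 (by linarith [hy.1, hc2.1]) (by linarith [hz.2, hc2.2]) h2
  have := NN_anti hK hω hω2 l1.1.le (show c1 < c2 by linarith [hc1.2, hc2.1]) l2.2.le
  linarith

/-- `G` has at most one zero if `S` has no zero. -/
lemma zeros_G_of_S {K ω ε : ℝ} (hK : 0 < K)
    (hε : -1 < ε) (hε1 : ε < 1) (hS : ∀ θ ∈ Ioo ω (ω + π), S K ω θ ≠ 0) :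
    {θ | θ ∈ Ioo ω (ω + π) ∧ G K ω ε θ = 0}.Finite ∧
      {θ | θ ∈ Ioo ω (ω + π) ∧ G K ω ε θ = 0}.ncard ≤ 1 := by
  apply card_le_one_of
  rintro p ⟨hp, hp0⟩ q ⟨hq, hq0⟩ hpq
  have hU : ∀ t, U ω ε t ≠ 0 := fun t => (U_pos hε hε1 ω t).ne'
  have hs : ∀ t, ω < t → t < ω + π → 0 < sin (t - ω) := fun t h1 h2 => sin_phi_pos h1 h2
  have hd : ∀ t ∈ Icc p q, HasDerivAt (G K ω ε) _ t := fun t ht =>
    hasDerivAt_G hK (hU t) (hs t (by linarith [ht.1, hp.1]) (by linarith [ht.2, hq.2])).ne'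
  obtain ⟨c, hc, h0⟩ := exists_hasDerivAt_eq_zero hpq
    (fun t ht => (hd t ht).continuousAt.continuousWithinAt) (hp0.trans hq0.symm)
    (fun t ht => hd t ⟨ht.1.le, ht.2.le⟩)
  have hcI : c ∈ Ioo ω (ω + π) := ⟨by linarith [hc.1, hp.1], by linarith [hc.2, hq.2]⟩
  have h1 := hs c hcI.1 hcI.2
  have h2 := sg_pos hK c
  have h3 := U_pos hε hε1 ω c
  rw [div_eq_zero_iff] at h0
  rcases h0 with h0 | h0
  · rcases mul_eq_zero.1 h0 with h4 | h4
    · have : 0 < U ω ε c * sg K c := by positivity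
      linarith
    · exact hS c hcI h4
  · linarith

lemma S_ne_zero_zero {K : ℝ} (hK : 0 < K) (hK1 : K < 1) :
    ∀ θ ∈ Ioo (0 : ℝ) (0 + π), S K 0 θ ≠ 0 := by
  intro θ hθ
  have hs : 0 < sin (θ - 0) := sin_phi_pos hθ.1 hθ.2
  apply ne_of_lt
  rw [S_neg_iff hK hK1 hs]
  unfold NN
  rw [sub_zero] at hs
  simp
  positivity

lemma S_ne_zero_pi_half {K : ℝ} (hK : 0 < K) (hK1 : K < 1) :
    ∀ θ ∈ Ioo (π / 2) (π / 2 + π), S K (π / 2) θ ≠ 0 := by
  intro θ hθ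
  have hs : 0 < sin (θ - π / 2) := sin_phi_pos hθ.1 hθ.2
  apply ne_of_gt
  rw [S_pos_iff hK hK1 hs]
  unfold NN
  rw [sin_sub_pi_div_two] at hs
  simp
  have : cos θ < 0 := by linarith
  exact Odd.pow_neg (by decide) this

/-- Reflection. -/
lemma Psi_reflect {K ω ε θ : ℝ} (hω : ω = 0 ∨ ω = π / 2) :
    Psi K ω ε (2 * ω + π - θ) = -Psi K ω (-ε) θ := by
  have e1 : sin (2 * ω + π - θ - ω) = sin (θ - ω) := by
    rw [show 2 * ω + π - θ - ω = π - (θ - ω) by ring, sin_pi_sub]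
  have e2 : cos (2 * ω + π - θ - ω) = -cos (θ - ω) := by
    rw [show 2 * ω + π - θ - ω = π - (θ - ω) by ring, cos_pi_sub]
  have e3 : sin (2 * ω + π - θ) ^ 2 = sin θ ^ 2 ∧
      sin (2 * ω + π - θ) * cos (2 * ω + π - θ) = -(sin θ * cos θ) := by
    rcases hω with h | h
    · rw [h, show 2 * 0 + π - θ = π - θ by ring, sin_pi_sub, cos_pi_sub]
      constructor <;> ring
    · rw [h, show 2 * (π / 2) + π - θ = 2 * π - θ by ring, sin_two_pi_sub, cos_two_pi_sub]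
      constructor <;> ring
  have e4 : g2 K (2 * ω + π - θ) = g2 K θ := by rw [g2_eq, g2_eq, e3.1]
  have e5 : A1 K (2 * ω + π - θ) = -A1 K θ := by
    unfold A1
    rw [e4, mul_assoc, e3.2]
    ring
  have e6 : U ω ε (2 * ω + π - θ) = U ω (-ε) θ := by
    unfold U; rw [e2]; ring
  have e7 : Nn ω ε (2 * ω + π - θ) = -Nn ω (-ε) θ := by
    unfold Nn; rw [e6, e1]; ring
  unfold Psi G sg
  rw [e1, e4, e5, e6, e7]
  ring

lemma Zs_reflect {K ω ε v : ℝ} (hω : ω = 0 ∨ ω = π / 2) :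
    Zs K ω ε v ⊆ (fun θ => 2 * ω + π - θ) '' Zs K ω (-ε) v := by
  rintro θ ⟨hθ, h0⟩
  refine ⟨2 * ω + π - θ, ⟨⟨by linarith [hθ.2], by linarith [hθ.1]⟩, ?_⟩, by simp⟩
  have h1 := Psi_reflect (K := K) (ε := -ε) (θ := θ) hω
  rw [neg_neg] at h1
  rw [h1, neg_sq, h0]
  ring

/-- The counts for `0 < K < 1`. -/
theorem Zs_generic {K ω e v : ℝ} (hK : 0 < K) (hK1 : K < 1) (hω : 0 < ω) (hω2 : ω < π / 2)
    (he : 0 < e) (he1 : e < 1) (hv : 0 < v) :
    ((Zs K ω (-e) v).Finite ∧ (Zs K ω (-e) v).ncard ≤ 4) ∧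
      ((Zs K ω e v).Finite ∧ (Zs K ω e v).ncard ≤ 6) := by
  constructor
  · exact Zs_interleave (p := 2) (q := 1) hK (by linarith) (by linarith) (by linarith [he]) hv
      (zeros_G hK hK1 hω hω2 (by linarith) (by linarith))
      (zeros_Phi_neg hK hK1 hω.le hω2.le (by linarith) (by linarith))
  · exact Zs_interleave (p := 2) (q := 3) hK (by linarith) (by linarith) he.ne' hv
      (zeros_G hK hK1 hω hω2 (by linarith) (by linarith))
      (zeros_Phi_pos hK hK1 hω hω2 (by linarith) (by linarith))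

theorem Zs_special {K ω e v : ℝ} (hK : 0 < K) (hK1 : K < 1) (hω : ω = 0 ∨ ω = π / 2)
    (he : 0 < e) (he1 : e < 1) (hv : 0 < v) :
    ((Zs K ω (-e) v).Finite ∧ (Zs K ω (-e) v).ncard ≤ 3) ∧
      ((Zs K ω e v).Finite ∧ (Zs K ω e v).ncard ≤ 3) := by
  have hω0 : 0 ≤ ω := by rcases hω with h | h <;> rw [h]; positivity
  have hω2 : ω ≤ π / 2 := by rcases hω with h | h <;> rw [h]; positivity
  have hS : ∀ θ ∈ Ioo ω (ω + π), S K ω θ ≠ 0 := by
    rcases hω with h | h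
    · rw [h]; exact S_ne_zero_zero hK hK1
    · rw [h]; exact S_ne_zero_pi_half hK hK1
  have h1 : (Zs K ω (-e) v).Finite ∧ (Zs K ω (-e) v).ncard ≤ 3 :=
    Zs_interleave (p := 1) (q := 1) hK (by linarith) (by linarith) (by linarith [he]) hv
      (zeros_G_of_S hK (by linarith) (by linarith) hS)
      (zeros_Phi_neg hK hK1 hω0 hω2 (by linarith) (by linarith))
  refine ⟨h1, ?_⟩
  have h2 := Zs_reflect (K := K) (ε := e) (v := v) hω
  refine ⟨(h1.1.image _).subset h2, ?_⟩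
  exact (ncard_le_ncard h2 (h1.1.image _)).trans ((ncard_image_le h1.1).trans h1.2)

end Pool.Agent.Helper75x.CE
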