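import Mathlib

/-! Definitions for the statement: ellipses with a prescribed focus and the stationary points of
the squared distance between two parametrised curves. -/

set_option autoImplicit false

namespace Pool.Agent.Helper75x.CE

/-- The ellipse with focus `F`, major semi-axis `a > 0` and eccentricity `e ∈ [0, 1)` in the plane
through `F` spanned by the orthonormal vectors `u` (direction of the centre from `F`) and `w`,
parametrised by the eccentric anomaly `t`. For `e = 0` it is the circle of centre `F` and
radius `a`. -/
noncomputable def ellipse (F u w : EuclideanSpace ℝ (Fin 3)) (a e : ℝ) (t : ℝ) :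
    EuclideanSpace ℝ (Fin 3) :=
  F + (a * (e + Real.cos t)) • u + (a * Real.sqrt (1 - e ^ 2) * Real.sin t) • w

/-- The stationary points of the squared distance: the pairs `(p s, q t)` of points of the two
curves at which both partial derivatives of `(s, t) ↦ dist (p s) (q t) ^ 2` vanish. -/
def stationaryPoints (p q : ℝ → EuclideanSpace ℝ (Fin 3)) :
    Set (EuclideanSpace ℝ (Fin 3) × EuclideanSpace ℝ (Fin 3)) :=
  {x | ∃ s t : ℝ, x = (p s, q t) ∧
    deriv (fun s' => dist (p s') (q t) ^ 2) s = 0 ∧
    deriv (fun t' => dist (p s) (q t') ^ 2) t = 0}

end Pool.Agent.Helper75x.CE
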