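import Pool.Agent.Helper75x.CE.Tset

/-! The cases `k = 1` (coplanar) and `k = 0` (perpendicular planes). -/

set_option autoImplicit false
open Set Real

namespace Pool.Agent.Helper75x.CE

theorem Tset_card_one {ω e v : ℝ} (he : 0 < e) (he1 : e < 1)
    (hv : 0 < v) (hω : 0 ≤ ω) (hω2 : ω ≤ π / 2) :
    (Tset 1 ω e v).Finite ∧ (Tset 1 ω e v).ncard ≤ 10 := by
  obtain ⟨q, hq⟩ : ∃ q, q = (v - 1) / e := ⟨_, rfl⟩
  have hω' := sin_sq_add_cos_sq ω
  let F : ℝ → ℝ × ℝ × ℝ × ℝ := fun t =>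
    (q * cos ω - t * sin ω, q * sin ω + t * cos ω, q * cos ω - t * sin ω, q * sin ω + t * cos ω)
  have hE := E4_card ω
  have hsub : Tset 1 ω e v ⊆ E4 ω ∪ F '' {√(1 - q ^ 2), -√(1 - q ^ 2)} := by
    rintro ⟨C, S, c, s⟩ h
    change IsT 1 ω e v C S c s at h
    by_cases h0 : s * cos ω - c * sin ω = 0
    · left; exact (T_degenerate (by norm_num) le_rfl he he1 hω hω2 h h0).1
    · right
      obtain ⟨h1, h2, h3, h4⟩ := h
      have h3' : S * c = C * s := by linarith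
      obtain ⟨η, hη⟩ : ∃ η, η = C * c + S * s := ⟨_, rfl⟩
      have hC : C = η * c := by rw [hη]; linear_combination (-C) * h2 - s * h3'
      have hS : S = η * s := by rw [hη]; linear_combination (-S) * h2 + c * h3'
      have hη2 : η ^ 2 = 1 := by
        have : C ^ 2 + S ^ 2 = η ^ 2 * (c ^ 2 + s ^ 2) := by rw [hC, hS]; ring
        rw [h1, h2] at this; linarith
      have h5 : (s * cos ω - c * sin ω) *
          (v - (1 + e * cos ω * c + e * sin ω * s) * η) = 0 := by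
        rw [hC, hS] at h4
        have h6 : e * ((s * cos ω - c * sin ω) *
          (v - (1 + e * cos ω * c + e * sin ω * s) * η)) = 0 := by
          linear_combination (-1) * h4
        exact (mul_eq_zero.1 h6).resolve_left he.ne'
      have h6 := (mul_eq_zero.1 h5).resolve_left h0
      have hcc : (c * cos ω + s * sin ω) ^ 2 + (s * cos ω - c * sin ω) ^ 2 = 1 := by
        linear_combination (sin ω ^ 2 + cos ω ^ 2) * h2 + hω'
      have hu : 0 < 1 + e * cos ω * c + e * sin ω * s := by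
        have h7 : -1 ≤ c * cos ω + s * sin ω := by nlinarith [sq_nonneg (s * cos ω - c * sin ω)]
        have : 1 + e * cos ω * c + e * sin ω * s = 1 + e * (c * cos ω + s * sin ω) := by ring
        rw [this]
        nlinarith
      have hη1 : η = 1 := by
        have : (η - 1) * (η + 1) = 0 := by linear_combination hη2
        rcases mul_eq_zero.1 this with h | h
        · linarith
        · exfalso
          have : η = -1 := by linarith
          rw [this] at h6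
          linarith
      rw [hη1] at h6
      have hq' : q = c * cos ω + s * sin ω := by
        rw [hq, div_eq_iff he.ne']
        linear_combination h6
      obtain ⟨t, ht⟩ : ∃ t, t = s * cos ω - c * sin ω := ⟨_, rfl⟩
      have ht2 : t ^ 2 = 1 - q ^ 2 := by rw [ht, hq']; linarith
      refine ⟨t, ?_, ?_⟩
      · have h8 : √(1 - q ^ 2) ^ 2 = 1 - q ^ 2 := sq_sqrt (by rw [← ht2]; positivity)
        have h9 : t ^ 2 = √(1 - q ^ 2) ^ 2 := by rw [h8, ht2]
        rcases sq_eq_sq_iff_eq_or_eq_neg.1 h9 with h | h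
        · left; exact h
        · right; exact h
      · have hc1 : q * cos ω - t * sin ω = c := by
          rw [hq', ht]; linear_combination c * hω'
        have hs1 : q * sin ω + t * cos ω = s := by
          rw [hq', ht]; linear_combination s * hω'
        simp only [F]
        rw [hc1, hs1, hC, hS, hη1, one_mul, one_mul]
  have hf2 : ({√(1 - q ^ 2), -√(1 - q ^ 2)} : Set ℝ).Finite := toFinite _
  have hf : (E4 ω ∪ F '' {√(1 - q ^ 2), -√(1 - q ^ 2)}).Finite := hE.1.union (hf2.image _)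
  refine ⟨hf.subset hsub, (ncard_le_ncard hsub hf).trans ?_⟩
  refine (ncard_union_le _ _).trans ?_
  have h2 := ncard_image_le (f := F) hf2
  have h3 : ({√(1 - q ^ 2), -√(1 - q ^ 2)} : Set ℝ).ncard ≤ 2 :=
    (ncard_insert_le _ _).trans (by simp)
  have := hE.2
  omega

/-! ### perpendicular planes -/

noncomputable def G0 (ω ε θ : ℝ) : ℝ := (sin θ - ε * sin ω) / sin (θ - ω)
noncomputable def P0 (ω ε θ : ℝ) : ℝ := U ω ε θ * G0 ω ε θ
noncomputable def F0 (ω ε θ : ℝ) : ℝ :=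
  ε * (sin θ - ε * sin ω) * sin (θ - ω) ^ 2 - sin ω * U ω ε θ ^ 2
def Z0 (ω ε v : ℝ) : Set ℝ := {θ | θ ∈ Ioo ω (ω + π) ∧ P0 ω ε θ ^ 2 = (v * ε) ^ 2}

lemma sin_eq_sub (ω θ : ℝ) : sin ω = sin θ * cos (θ - ω) - cos θ * sin (θ - ω) := by
  rw [← sin_sub]; congr 1; ring

lemma hasDerivAt_G0 {ω ε θ : ℝ} (hs : sin (θ - ω) ≠ 0) :
    HasDerivAt (G0 ω ε) (-(sin ω * U ω ε θ) / sin (θ - ω) ^ 2) θ := by
  have h0 : HasDerivAt (fun t : ℝ => t - ω) 1 θ := (hasDerivAt_id θ).sub_const ω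
  have h2 := ((hasDerivAt_sin θ).sub_const (ε * sin ω)).div h0.sin hs
  refine h2.congr_deriv ?_
  unfold U
  congr 1
  have := sin_eq_sub ω θ
  linear_combination this

lemma hasDerivAt_P0 {ω ε θ : ℝ} (hs : sin (θ - ω) ≠ 0) :
    HasDerivAt (P0 ω ε) (F0 ω ε θ / sin (θ - ω) ^ 2) θ := by
  have h2 := (hasDerivAt_U ω ε θ).mul (hasDerivAt_G0 (ε := ε) hs)
  refine h2.congr_deriv ?_
  unfold G0 F0
  field_simp
  ring

lemma hasDerivAt_F0 (ω ε θ : ℝ) :
    HasDerivAt (F0 ω ε) (3 * ε * cos θ * sin (θ - ω) ^ 2) θ := by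
  have h0 : HasDerivAt (fun t : ℝ => t - ω) 1 θ := (hasDerivAt_id θ).sub_const ω
  have h1 : HasDerivAt (fun t : ℝ => sin (t - ω) ^ 2) (2 * sin (θ - ω) ^ 1 * (cos (θ - ω) * 1)) θ :=
    h0.sin.pow 2
  have h3 : HasDerivAt (fun t : ℝ => U ω ε t ^ 2) (2 * U ω ε θ ^ 1 * (ε * sin (θ - ω))) θ :=
    (hasDerivAt_U ω ε θ).pow 2
  have h2 := ((((hasDerivAt_sin θ).sub_const (ε * sin ω)).const_mul ε).mul h1).sub
    (h3.const_mul (sin ω))
  refine h2.congr_deriv ?_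
  have := sin_eq_sub ω θ
  unfold U
  linear_combination (-2 * ε * sin (θ - ω)) * this

lemma Z0_interleave {ω ε v : ℝ} (hε : -1 < ε) (hε1 : ε < 1) (hε0 : ε ≠ 0)
    (hv : 0 < v) {p q : ℕ}
    (hG : {θ | θ ∈ Ioo ω (ω + π) ∧ G0 ω ε θ = 0}.Finite ∧
      {θ | θ ∈ Ioo ω (ω + π) ∧ G0 ω ε θ = 0}.ncard ≤ p)
    (hP : {θ | θ ∈ Ioo ω (ω + π) ∧ F0 ω ε θ = 0}.Finite ∧
      {θ | θ ∈ Ioo ω (ω + π) ∧ F0 ω ε θ = 0}.ncard ≤ q) :
    (Z0 ω ε v).Finite ∧ (Z0 ω ε v).ncard ≤ p + q + 1 := by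
  refine ncard_le_of_interleaved hG hP ?_
  rintro x ⟨hx, hx0⟩ y ⟨hy, hy0⟩ hxy
  have hU : ∀ t, U ω ε t ≠ 0 := fun t => (U_pos hε hε1 ω t).ne'
  have hs : ∀ t ∈ Icc x y, sin (t - ω) ≠ 0 := fun t ht =>
    (sin_phi_pos (by linarith [hx.1, ht.1]) (by linarith [hy.2, ht.2])).ne'
  have hd : ∀ t ∈ Icc x y, HasDerivAt (P0 ω ε) _ t := fun t ht => hasDerivAt_P0 (hs t ht)
  have hcont : ContinuousOn (P0 ω ε) (Icc x y) := fun t ht =>
    (hd t ht).continuousAt.continuousWithinAt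
  have hvε : v * ε ≠ 0 := mul_ne_zero hv.ne' hε0
  by_cases heq : P0 ω ε x = P0 ω ε y
  · obtain ⟨c, hc, h0⟩ := exists_hasDerivAt_eq_zero hxy hcont heq
      (fun t ht => hd t ⟨ht.1.le, ht.2.le⟩)
    refine ⟨c, hc, Or.inr ⟨⟨by linarith [hx.1, hc.1], by linarith [hy.2, hc.2]⟩, ?_⟩⟩
    have h1 := (sin_phi_pos (ω := ω) (θ := c) (by linarith [hx.1, hc.1]) (by linarith [hy.2, hc.2]))
    rw [div_eq_zero_iff] at h0
    rcases h0 with h0 | h0
    · exact h0
    · exfalso; have : 0 < sin (c - ω) ^ 2 := by positivity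
      linarith
  · have hopp : P0 ω ε x = - P0 ω ε y := by
      have : P0 ω ε x ^ 2 = P0 ω ε y ^ 2 := by rw [hx0, hy0]
      rcases sq_eq_sq_iff_eq_or_eq_neg.1 this with h | h
      · exact absurd h heq
      · exact h
    have hyne : P0 ω ε y ≠ 0 := by
      intro h
      rw [h] at hy0
      exact hvε (by nlinarith [hy0] : v * ε = 0)
    have hz : ∃ c ∈ Ioo x y, P0 ω ε c = 0 := by
      rcases lt_or_gt_of_ne hyne with h | h
      · have := intermediate_value_Ioo' hxy.le hcont (show (0 : ℝ) ∈ Ioo _ _ from ⟨h, by rw [hopp]; linarith⟩)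
        obtain ⟨c, hc, h0⟩ := this
        exact ⟨c, hc, h0⟩
      · have := intermediate_value_Ioo hxy.le hcont (show (0 : ℝ) ∈ Ioo _ _ from ⟨by rw [hopp]; linarith, h⟩)
        obtain ⟨c, hc, h0⟩ := this
        exact ⟨c, hc, h0⟩
    obtain ⟨c, hc, h0⟩ := hz
    refine ⟨c, hc, Or.inl ⟨⟨by linarith [hx.1, hc.1], by linarith [hy.2, hc.2]⟩, ?_⟩⟩
    unfold P0 at h0
    exact (mul_eq_zero.1 h0).resolve_left (hU c)

lemma zeros_G0 {ω ε : ℝ} (hω : 0 < ω) (hω2 : ω ≤ π / 2) (hε : -1 < ε) (hε1 : ε < 1) :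
    {θ | θ ∈ Ioo ω (ω + π) ∧ G0 ω ε θ = 0}.Finite ∧
      {θ | θ ∈ Ioo ω (ω + π) ∧ G0 ω ε θ = 0}.ncard ≤ 1 := by
  apply card_le_one_of
  rintro p ⟨hp, hp0⟩ q ⟨hq, hq0⟩ hpq
  have hs : ∀ t, ω < t → t < ω + π → 0 < sin (t - ω) := fun t h1 h2 => sin_phi_pos h1 h2
  have hsω : 0 < sin ω := sin_pos_of_pos_of_lt_pi hω (by linarith [pi_pos])
  have hd : ∀ t ∈ Icc p q, HasDerivAt (G0 ω ε) _ t := fun t ht =>
    hasDerivAt_G0 (hs t (by linarith [ht.1, hp.1]) (by linarith [ht.2, hq.2])).ne'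
  obtain ⟨c, hc, h0⟩ := exists_hasDerivAt_eq_zero hpq
    (fun t ht => (hd t ht).continuousAt.continuousWithinAt) (hp0.trans hq0.symm)
    (fun t ht => hd t ⟨ht.1.le, ht.2.le⟩)
  have hcI : c ∈ Ioo ω (ω + π) := ⟨by linarith [hc.1, hp.1], by linarith [hc.2, hq.2]⟩
  have h1 := hs c hcI.1 hcI.2
  have h3 := U_pos hε hε1 ω c
  have : 0 < sin ω * U ω ε c / sin (c - ω) ^ 2 := by positivity
  rw [neg_div] at h0
  linarith

/-- For `ε < 0` the function `F0` is negative. -/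
lemma F0_neg {ω ε θ : ℝ} (hω : 0 < ω) (hω2 : ω ≤ π / 2) (hε : -1 < ε) (hε0 : ε < 0)
    (hθ : θ ∈ Ioo ω (ω + π)) : F0 ω ε θ < 0 := by
  have hsω : 0 < sin ω := sin_pos_of_pos_of_lt_pi hω (by linarith [pi_pos])
  have hend1 : F0 ω ε ω < 0 := by
    unfold F0 U
    simp
    have : (1 - ε) ≠ 0 := by linarith
    positivity
  have hend2 : F0 ω ε (ω + π) < 0 := by
    unfold F0 U
    simp
    have : (1 + ε) ≠ 0 := by linarith
    positivity
  rcases le_or_gt θ (π / 2) with h | h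
  · -- decreasing on `[ω, π/2]`
    obtain ⟨c, hc, h0⟩ := exists_hasDerivAt_eq_slope (F0 ω ε) _ hθ.1
      (fun t _ => (hasDerivAt_F0 ω ε t).continuousAt.continuousWithinAt)
      (fun t _ => hasDerivAt_F0 ω ε t)
    have hcc : 0 ≤ cos c := cos_nonneg_of_mem_Icc ⟨by linarith [hc.1, pi_pos], by linarith [hc.2]⟩
    have h2 : 3 * ε * cos c * sin (c - ω) ^ 2 ≤ 0 := by
      have : 0 ≤ 3 * (-ε) * cos c * sin (c - ω) ^ 2 := by
        have : 0 < -ε := by linarith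
        positivity
      linarith
    rw [h0, div_le_iff₀ (by linarith [hθ.1])] at h2
    linarith
  · obtain ⟨c, hc, h0⟩ := exists_hasDerivAt_eq_slope (F0 ω ε) _ hθ.2
      (fun t _ => (hasDerivAt_F0 ω ε t).continuousAt.continuousWithinAt)
      (fun t _ => hasDerivAt_F0 ω ε t)
    have hcc : cos c ≤ 0 := cos_nonpos_of_pi_div_two_le_of_le (by linarith [hc.1])
      (by linarith [hc.2])
    have h2 : 0 ≤ 3 * ε * cos c * sin (c - ω) ^ 2 := by
      have : 0 ≤ 3 * (-ε) * (-cos c) * sin (c - ω) ^ 2 := by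
        have : 0 < -ε := by linarith
        have : 0 ≤ -cos c := by linarith
        positivity
      linarith
    rw [h0, le_div_iff₀ (by linarith [hθ.2])] at h2
    linarith

lemma zeros_F0_neg {ω ε : ℝ} (hω : 0 < ω) (hω2 : ω ≤ π / 2) (hε : -1 < ε) (hε0 : ε < 0) :
    {θ | θ ∈ Ioo ω (ω + π) ∧ F0 ω ε θ = 0}.Finite ∧
      {θ | θ ∈ Ioo ω (ω + π) ∧ F0 ω ε θ = 0}.ncard ≤ 0 := by
  have : {θ | θ ∈ Ioo ω (ω + π) ∧ F0 ω ε θ = 0} = ∅ := by
    ext θ
    simp only [mem_ofPred_eq, mem_empty_iff_false, iff_false, not_and]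
    intro hθ h
    linarith [F0_neg hω hω2 hε hε0 hθ]
  rw [this]
  simp

lemma zeros_F0_pos {ω ε : ℝ} (hω : 0 < ω) (hω2 : ω ≤ π / 2) (hε : 0 < ε) :
    {θ | θ ∈ Ioo ω (ω + π) ∧ F0 ω ε θ = 0}.Finite ∧
      {θ | θ ∈ Ioo ω (ω + π) ∧ F0 ω ε θ = 0}.ncard ≤ 2 := by
  apply card_le_two_of
  rintro x ⟨hx, hx0⟩ y ⟨hy, hy0⟩ z ⟨hz, hz0⟩ hxy hyz
  have key : ∀ p q, p < q → ω < p → q < ω + π → F0 ω ε p = 0 → F0 ω ε q = 0 →
      ∃ c ∈ Ioo p q, cos c = 0 := by
    intro p q hpq hp hq hp0 hq0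
    obtain ⟨c, hc, h0⟩ := exists_hasDerivAt_eq_zero hpq
      (fun t _ => (hasDerivAt_F0 ω ε t).continuousAt.continuousWithinAt) (hp0.trans hq0.symm)
      (fun t _ => hasDerivAt_F0 ω ε t)
    refine ⟨c, hc, ?_⟩
    have h1 := sin_phi_pos (ω := ω) (θ := c) (by linarith [hc.1]) (by linarith [hc.2])
    have h2 : (3 * ε * sin (c - ω) ^ 2) * cos c = 0 := by linarith
    exact (mul_eq_zero.1 h2).resolve_left (by positivity)
  obtain ⟨c1, hc1, h1⟩ := key x y hxy hx.1 hy.2 hx0 hy0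
  obtain ⟨c2, hc2, h2⟩ := key y z hyz hy.1 hz.2 hy0 hz0
  have loc : ∀ c, ω < c → c < ω + π → cos c = 0 → c = π / 2 := by
    intro c hc hc' h0
    rcases lt_trichotomy c (π / 2) with h | h | h
    · have := cos_pos_of_mem_Ioo (x := c) ⟨by linarith [pi_pos], h⟩
      linarith
    · exact h
    · have := cos_neg_of_pi_div_two_lt_of_lt h (by linarith)
      linarith
  have l1 := loc c1 (by linarith [hx.1, hc1.1]) (by linarith [hy.2, hc1.2]) h1
  have l2 := loc c2 (by linarith [hy.1, hc2.1]) (by linarith [hz.2, hc2.2]) h2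
  linarith [hc1.2, hc2.1]

lemma Z0_zero {ε v : ℝ} (hε : -1 < ε) (hε1 : ε < 1) (hε0 : ε ≠ 0) :
    (Z0 0 ε v).Finite ∧ (Z0 0 ε v).ncard ≤ 1 := by
  apply card_le_one_of
  rintro x ⟨hx, hx0⟩ y ⟨hy, hy0⟩ hxy
  have key : ∀ t ∈ Ioo (0 : ℝ) (0 + π), P0 0 ε t = 1 - ε * cos t := by
    intro t ht
    have h1 := sin_phi_pos ht.1 ht.2
    rw [sub_zero] at h1
    unfold P0 G0 U
    simp
    field_simp
  have hUx := U_pos hε hε1 0 x
  have hUy := U_pos hε hε1 0 y
  rw [key x hx] at hx0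
  rw [key y hy] at hy0
  unfold U at hUx hUy
  rw [sub_zero] at hUx hUy
  have h1 : 1 - ε * cos x = 1 - ε * cos y := by
    have h2 : (1 - ε * cos x) ^ 2 = (1 - ε * cos y) ^ 2 := by rw [hx0, hy0]
    rcases sq_eq_sq_iff_eq_or_eq_neg.1 h2 with h | h
    · exact h
    · linarith
  have h2 : ε * (cos x - cos y) = 0 := by linarith
  have h3 := (mul_eq_zero.1 h2).resolve_left hε0
  have h4 := cos_lt_cos_of_nonneg_of_le_pi (le_of_lt hx.1) (by linarith [hy.2]) hxy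
  linarith

noncomputable def Fmap0 (ω ε v δ θ : ℝ) : ℝ × ℝ × ℝ × ℝ :=
  (δ * P0 ω ε θ / (v * ε), 0, δ * cos θ, δ * sin θ)

lemma T0_point {ω e v δ θ C : ℝ} (he : 0 < e)
    (hv : 0 < v) (hδ : δ = 1 ∨ δ = -1) (hθ : θ ∈ Ioo ω (ω + π))
    (h : IsT 0 ω e v C 0 (δ * cos θ) (δ * sin θ)) :
    θ ∈ Z0 ω (-(δ * e)) v ∧
      (C, 0, δ * cos θ, δ * sin θ) = Fmap0 ω (-(δ * e)) v δ θ := by
  obtain ⟨h1, -, -, h4⟩ := h
  have hs := sin_phi_pos hθ.1 hθ.2
  have hδ2 : δ ^ 2 = 1 := by rcases hδ with h | h <;> rw [h] <;> norm_num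
  have hδ0 : δ ≠ 0 := by rintro rfl; norm_num at hδ2
  obtain ⟨ε, hε⟩ : ∃ ε, ε = -(δ * e) := ⟨_, rfl⟩
  rw [← hε]
  have hε0 : ε ≠ 0 := by
    rw [hε]; exact neg_ne_zero.2 (mul_ne_zero hδ0 he.ne')
  have hC2 : C ^ 2 = 1 := by linarith
  have hmain : v * ε = δ * C * P0 ω ε θ := by
    apply mul_right_cancel₀ hs.ne'
    have e6 : v * ε * sin (θ - ω) = v * (e * sin ω * (δ * cos θ) - e * cos ω * (δ * sin θ)) := by
      rw [sin_sub, hε]; ring
    have e7 : (1 + e * cos ω * (δ * cos θ) + e * sin ω * (δ * sin θ)) = U ω ε θ := by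
      unfold U
      rw [cos_sub, hε]; ring
    rw [e6, h4, e7]
    unfold P0 G0
    field_simp
    rw [hε]
    linear_combination (-(C * U ω (-(δ * e)) θ * e * sin ω)) * hδ2
  have hP : P0 ω ε θ = δ * C * (v * ε) := by
    rw [hmain]
    linear_combination (-P0 ω ε θ * C ^ 2) * hδ2 - P0 ω ε θ * hC2
  refine ⟨⟨hθ, ?_⟩, ?_⟩
  · rw [hP, mul_pow, mul_pow, hδ2, hC2]; ring
  · unfold Fmap0
    have : δ * P0 ω ε θ / (v * ε) = C := by
      rw [hP]
      field_simp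
      linear_combination C * hδ2
    rw [this]

lemma T0_generic {ω e v C c s : ℝ} (he : 0 < e)
    (hv : 0 < v) (h : IsT 0 ω e v C 0 c s) (hs : s * cos ω - c * sin ω ≠ 0) :
    (C, 0, c, s) ∈ Fmap0 ω (-e) v 1 '' Z0 ω (-e) v ∪ Fmap0 ω e v (-1) '' Z0 ω e v := by
  rcases lt_or_gt_of_ne hs with h0 | h0
  · right
    obtain ⟨θ, hθ, hc, hs'⟩ := exists_angle (ω := ω) (c := -c) (s := -s)
      (by have := h.2.1; linarith) (by linarith)
    have hc' : c = -1 * cos θ := by linarith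
    have hs'' : s = -1 * sin θ := by linarith
    rw [hc', hs''] at h ⊢
    have := T0_point he hv (by norm_num) hθ h
    rw [show -(-1 * e) = e by ring] at this
    exact ⟨θ, this.1, this.2.symm⟩
  · left
    obtain ⟨θ, hθ, hc, hs'⟩ := exists_angle (ω := ω) h.2.1 h0
    have hc' : c = 1 * cos θ := by linarith
    have hs'' : s = 1 * sin θ := by linarith
    rw [hc', hs''] at h ⊢
    have := T0_point he hv (by norm_num) hθ h
    rw [show -(1 * e) = -e by ring] at this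
    exact ⟨θ, this.1, this.2.symm⟩

/-- The points with `S ≠ 0` when `k = 0`. -/
lemma T0_B {ω e v C S c s : ℝ} (he : 0 < e) (he1 : e < 1) (hω : 0 ≤ ω) (hω2 : ω ≤ π / 2)
    (h : IsT 0 ω e v C S c s) (hS : S ≠ 0) :
    (C, S, c, s) ∈ (fun q : ℝ × ℝ => (-(v * (e * cos ω)) / (1 + e * sin ω * q.1) ^ 2,
      q.2 * √(1 - (-(v * (e * cos ω)) / (1 + e * sin ω * q.1) ^ 2) ^ 2), (0 : ℝ), q.1)) ''
        (({1, -1} : Set ℝ) ×ˢ ({1, -1} : Set ℝ)) := by
  obtain ⟨h1, h2, h3, h4⟩ := h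
  have hc : c = 0 := by
    have : S * c = 0 := by linarith
    exact (mul_eq_zero.1 this).resolve_left hS
  rw [hc] at h2 h4 ⊢
  have hs : s = 1 ∨ s = -1 := by
    have : (s - 1) * (s + 1) = 0 := by linear_combination h2
    rcases mul_eq_zero.1 this with h | h
    · left; linarith
    · right; linarith
  have hs2 : s ^ 2 = 1 := by linarith
  have hsω : 0 ≤ sin ω := sin_nonneg_of_nonneg_of_le_pi hω (by linarith [pi_pos])
  have hsω1 := sin_le_one ω
  have hu : 0 < 1 + e * sin ω * s := by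
    rcases hs with h | h <;> rw [h] <;> nlinarith
  have hC : C = -(v * (e * cos ω)) / (1 + e * sin ω * s) ^ 2 := by
    rw [eq_div_iff (by positivity)]
    have hs0 : s ≠ 0 := by rintro rfl; norm_num at hs2
    apply mul_left_cancel₀ hs0
    linear_combination (-1) * h4 + (C * (1 + e * sin ω * s) * e * sin ω) * hs2
  refine ⟨(s, if 0 < S then 1 else -1), ⟨mem_pm hs, ?_⟩, ?_⟩
  · split_ifs <;> simp
  · simp only
    rw [← hC]
    have h5 : 1 - C ^ 2 = S ^ 2 := by linarith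
    rw [h5, sqrt_sq_eq_abs]
    split_ifs with hS'
    · rw [abs_of_pos hS', one_mul]
    · rw [abs_of_nonpos (not_lt.1 hS')]; simp

theorem Tset_card_zero {ω e v : ℝ} (he : 0 < e) (he1 : e < 1)
    (hv : 0 < v) (hω : 0 ≤ ω) (hω2 : ω ≤ π / 2) :
    (Tset 0 ω e v).Finite ∧ (Tset 0 ω e v).ncard ≤ 10 := by
  obtain ⟨B, hBdef⟩ : ∃ B, B = (fun q : ℝ × ℝ => (-(v * (e * cos ω)) / (1 + e * sin ω * q.1) ^ 2,
      q.2 * √(1 - (-(v * (e * cos ω)) / (1 + e * sin ω * q.1) ^ 2) ^ 2), (0 : ℝ), q.1)) ''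
        (({1, -1} : Set ℝ) ×ˢ ({1, -1} : Set ℝ)) := ⟨_, rfl⟩
  have hB : B.Finite ∧ B.ncard ≤ 4 := by
    have hf : (({1, -1} : Set ℝ) ×ˢ ({1, -1} : Set ℝ)).Finite :=
      (toFinite _).prod (toFinite _)
    rw [hBdef]
    refine ⟨hf.image _, (ncard_image_le hf).trans ?_⟩
    rw [ncard_prod]
    have : ({1, -1} : Set ℝ).ncard ≤ 2 := ncard_insert_le 1 {-1} |>.trans (by simp)
    nlinarith
  have hE := E4_card ω
  rcases eq_or_lt_of_le hω with hω0 | hω0
  · have hZ1 := Z0_zero (ε := -e) (v := v) (by linarith) (by linarith) (by linarith)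
    have hZ2 := Z0_zero (ε := e) (v := v) (by linarith) (by linarith) (by linarith)
    rw [hω0] at hZ1 hZ2
    have hsub : Tset 0 ω e v ⊆ ((Fmap0 ω (-e) v 1 '' Z0 ω (-e) v ∪
        Fmap0 ω e v (-1) '' Z0 ω e v) ∪ E4 ω) ∪ B := by
      rintro ⟨C, S, c, s⟩ h
      change IsT 0 ω e v C S c s at h
      rcases eq_or_ne S 0 with hS | hS
      · left
        rw [hS] at h ⊢
        by_cases h0 : s * cos ω - c * sin ω = 0
        · right; exact (T_degenerate le_rfl zero_le_one he he1 hω hω2 h h0).1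
        · left; exact T0_generic he hv h h0
      · right; rw [hBdef]; exact T0_B he he1 hω hω2 h hS
    have hf : (((Fmap0 ω (-e) v 1 '' Z0 ω (-e) v ∪
        Fmap0 ω e v (-1) '' Z0 ω e v) ∪ E4 ω) ∪ B).Finite :=
      (((hZ1.1.image _).union (hZ2.1.image _)).union hE.1).union hB.1
    refine ⟨hf.subset hsub, (ncard_le_ncard hsub hf).trans ?_⟩
    have h1 := ncard_union_le ((Fmap0 ω (-e) v 1 '' Z0 ω (-e) v ∪
        Fmap0 ω e v (-1) '' Z0 ω e v) ∪ E4 ω) B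
    have h2 := ncard_union_le (Fmap0 ω (-e) v 1 '' Z0 ω (-e) v ∪
        Fmap0 ω e v (-1) '' Z0 ω e v) (E4 ω)
    have h3 := ncard_union_le (Fmap0 ω (-e) v 1 '' Z0 ω (-e) v)
      (Fmap0 ω e v (-1) '' Z0 ω e v)
    have h4 := ncard_image_le (f := Fmap0 ω (-e) v 1) hZ1.1
    have h5 := ncard_image_le (f := Fmap0 ω e v (-1)) hZ2.1
    have := hZ1.2
    have := hZ2.2
    have := hE.2
    have := hB.2
    omega
  · have hsω : 0 < sin ω := sin_pos_of_pos_of_lt_pi hω0 (by linarith [pi_pos])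
    have hZ1 : (Z0 ω (-e) v).Finite ∧ (Z0 ω (-e) v).ncard ≤ 1 + 0 + 1 :=
      Z0_interleave (by linarith) (by linarith) (by linarith) hv
        (zeros_G0 hω0 hω2 (by linarith) (by linarith))
        (zeros_F0_neg hω0 hω2 (by linarith) (by linarith))
    have hZ2 : (Z0 ω e v).Finite ∧ (Z0 ω e v).ncard ≤ 1 + 2 + 1 :=
      Z0_interleave (by linarith) (by linarith) (by linarith) hv
        (zeros_G0 hω0 hω2 (by linarith) (by linarith))
        (zeros_F0_pos hω0 hω2 (by linarith))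
    have hsub : Tset 0 ω e v ⊆ (Fmap0 ω (-e) v 1 '' Z0 ω (-e) v ∪
        Fmap0 ω e v (-1) '' Z0 ω e v) ∪ B := by
      rintro ⟨C, S, c, s⟩ h
      change IsT 0 ω e v C S c s at h
      rcases eq_or_ne S 0 with hS | hS
      · left
        rw [hS] at h ⊢
        by_cases h0 : s * cos ω - c * sin ω = 0
        · exfalso
          obtain ⟨⟨η, δ⟩, ⟨hη, -⟩, heq⟩ :=
            (T_degenerate le_rfl zero_le_one he he1 hω hω2 h h0).1
          simp only [Prod.mk.injEq] at heq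
          have hη' : η = 1 ∨ η = -1 := by simpa using hη
          have hη0 : η ≠ 0 := by
            rcases hη' with h | h <;> rw [h] <;> norm_num
          have := heq.2.1
          rcases mul_eq_zero.1 this with h | h
          · exact hη0 h
          · linarith
        · exact T0_generic he hv h h0
      · right; rw [hBdef]; exact T0_B he he1 hω hω2 h hS
    have hf : ((Fmap0 ω (-e) v 1 '' Z0 ω (-e) v ∪
        Fmap0 ω e v (-1) '' Z0 ω e v) ∪ B).Finite :=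
      ((hZ1.1.image _).union (hZ2.1.image _)).union hB.1
    refine ⟨hf.subset hsub, (ncard_le_ncard hsub hf).trans ?_⟩
    have h2 := ncard_union_le (Fmap0 ω (-e) v 1 '' Z0 ω (-e) v ∪
        Fmap0 ω e v (-1) '' Z0 ω e v) B
    have h3 := ncard_union_le (Fmap0 ω (-e) v 1 '' Z0 ω (-e) v)
      (Fmap0 ω e v (-1) '' Z0 ω e v)
    have h4 := ncard_image_le (f := Fmap0 ω (-e) v 1) hZ1.1
    have h5 := ncard_image_le (f := Fmap0 ω e v (-1)) hZ2.1
    have := hZ1.2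
    have := hZ2.2
    have := hB.2
    omega

/-- The main count. -/
theorem Tset_card {k ω e v : ℝ} (hk : 0 ≤ k) (hk1 : k ≤ 1) (he : 0 < e) (he1 : e < 1)
    (hv : 0 < v) (hω : 0 ≤ ω) (hω2 : ω ≤ π / 2) :
    (Tset k ω e v).Finite ∧ (Tset k ω e v).ncard ≤ 10 := by
  rcases eq_or_lt_of_le hk with h | h
  · rw [← h]; exact Tset_card_zero he he1 hv hω hω2
  · rcases eq_or_lt_of_le hk1 with h' | h'
    · rw [h']; exact Tset_card_one he he1 hv hω hω2
    · exact Tset_card_mid h h' he he1 hv hω hω2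

end Pool.Agent.Helper75x.CE
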