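import Pool.Agent.Helper75x.CE.Basic

/-! The functions of the problem and their derivatives. -/

set_option autoImplicit false
open Set Real

namespace Pool.Agent.Helper75x.CE

/-- `cos² θ + K sin² θ` -/
noncomputable def g2 (K θ : ℝ) : ℝ := cos θ ^ 2 + K * sin θ ^ 2
noncomputable def A1 (K θ : ℝ) : ℝ := (1 - K) * sin θ * cos θ / g2 K θ
noncomputable def kp (K θ : ℝ) : ℝ := K / g2 K θ ^ 2
noncomputable def sg (K θ : ℝ) : ℝ := √(g2 K θ)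
noncomputable def Y (ω θ : ℝ) : ℝ := cos (θ - ω) / sin (θ - ω)
noncomputable def U (ω ε θ : ℝ) : ℝ := 1 - ε * cos (θ - ω)
noncomputable def Nn (ω ε θ : ℝ) : ℝ := ε * sin (θ - ω) / U ω ε θ
noncomputable def S (K ω θ : ℝ) : ℝ := 1 - kp K θ - A1 K θ * Y ω θ
noncomputable def Phi (K ω ε θ : ℝ) : ℝ := Nn ω ε θ ^ 2 + A1 K θ * Nn ω ε θ + S K ω θ
noncomputable def Lam (K ω ε θ : ℝ) : ℝ :=
  Nn ω ε θ * (1 + Nn ω ε θ * Y ω θ) - kp K θ * (Nn ω ε θ + A1 K θ)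
noncomputable def G (K ω ε θ : ℝ) : ℝ :=
  U ω ε θ * sg K θ * (Nn ω ε θ + A1 K θ) / sin (θ - ω)

lemma g2_pos {K : ℝ} (hK : 0 < K) (θ : ℝ) : 0 < g2 K θ := by
  unfold g2
  have h := sin_sq_add_cos_sq θ
  rcases eq_or_ne (cos θ) 0 with h0 | h0
  · rw [h0] at h ⊢
    have : sin θ ^ 2 = 1 := by linarith [h]
    rw [this]; positivity
  · positivity

lemma kp_pos {K : ℝ} (hK : 0 < K) (θ : ℝ) : 0 < kp K θ := by
  unfold kp
  have := g2_pos hK θ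
  positivity

lemma sg_pos {K : ℝ} (hK : 0 < K) (θ : ℝ) : 0 < sg K θ := sqrt_pos.2 (g2_pos hK θ)

lemma hasDerivAt_g2 (K θ : ℝ) : HasDerivAt (g2 K) (-2 * (1 - K) * sin θ * cos θ) θ := by
  have h1 : HasDerivAt (fun t => cos t ^ 2 + K * sin t ^ 2)
      (2 * cos θ ^ 1 * (-sin θ) + K * (2 * sin θ ^ 1 * cos θ)) θ :=
    ((hasDerivAt_cos θ).pow 2).add (((hasDerivAt_sin θ).pow 2).const_mul K)
  exact h1.congr_deriv (by ring)

lemma hasDerivAt_A1 {K : ℝ} (hK : 0 < K) (θ : ℝ) :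
    HasDerivAt (A1 K) (1 + A1 K θ ^ 2 - kp K θ) θ := by
  have hg := g2_pos hK θ
  have h1 : HasDerivAt (fun t => (1 - K) * sin t * cos t)
      ((1 - K) * cos θ * cos θ + (1 - K) * sin θ * (-sin θ)) θ :=
    ((hasDerivAt_sin θ).const_mul (1 - K)).mul (hasDerivAt_cos θ)
  have h2 := h1.div (hasDerivAt_g2 K θ) hg.ne'
  refine h2.congr_deriv ?_
  unfold A1 kp
  field_simp
  have h := sin_sq_add_cos_sq θ
  unfold g2
  have hc : cos θ ^ 2 = 1 - sin θ ^ 2 := by linarith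
  generalize sin θ = s at *
  generalize cos θ = c at *
  have hc4 : c ^ 4 = (1 - s ^ 2) ^ 2 := by rw [← hc]; ring
  ring_nf
  rw [hc4, hc]
  ring

lemma hasDerivAt_kp {K : ℝ} (hK : 0 < K) (θ : ℝ) :
    HasDerivAt (kp K) (4 * A1 K θ * kp K θ) θ := by
  have hg := g2_pos hK θ
  have h1 : HasDerivAt (fun t => g2 K t ^ 2) (2 * g2 K θ ^ 1 * (-2 * (1 - K) * sin θ * cos θ)) θ :=
    (hasDerivAt_g2 K θ).pow 2
  have h2 := (hasDerivAt_const θ K).div h1 (by positivity)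
  refine h2.congr_deriv ?_
  unfold A1 kp
  field_simp
  ring

lemma hasDerivAt_sg {K : ℝ} (hK : 0 < K) (θ : ℝ) :
    HasDerivAt (sg K) (-(A1 K θ * sg K θ)) θ := by
  have hg := g2_pos hK θ
  have h2 := (hasDerivAt_g2 K θ).sqrt hg.ne'
  refine h2.congr_deriv ?_
  have h3 := sg_pos hK θ
  have h4 : sg K θ ^ 2 = g2 K θ := by unfold sg; exact sq_sqrt hg.le
  change _ / (2 * sg K θ) = _
  unfold A1
  rw [← h4]
  field_simp

lemma hasDerivAt_Y {ω θ : ℝ} (hs : sin (θ - ω) ≠ 0) :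
    HasDerivAt (Y ω) (-(1 + Y ω θ ^ 2)) θ := by
  have h0 : HasDerivAt (fun t : ℝ => t - ω) 1 θ := (hasDerivAt_id θ).sub_const ω
  have h2 := (h0.cos).div (h0.sin) hs
  refine h2.congr_deriv ?_
  unfold Y
  field_simp
  ring

lemma hasDerivAt_U (ω ε θ : ℝ) : HasDerivAt (U ω ε) (ε * sin (θ - ω)) θ := by
  have h0 : HasDerivAt (fun t : ℝ => t - ω) 1 θ := (hasDerivAt_id θ).sub_const ω
  have h2 := ((h0.cos).const_mul ε).const_sub 1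
  refine h2.congr_deriv ?_
  ring

lemma U_pos {ε : ℝ} (h1 : -1 < ε) (h2 : ε < 1) (ω θ : ℝ) : 0 < U ω ε θ := by
  unfold U
  have h3 := neg_one_le_cos (θ - ω)
  have h4 := cos_le_one (θ - ω)
  nlinarith [mul_nonneg (sub_nonneg.2 h2.le) (sub_nonneg.2 h4),
    mul_nonneg (by linarith : 0 ≤ 1 + ε) (by linarith : 0 ≤ 1 + cos (θ - ω)),
    mul_nonneg (by linarith : 0 ≤ 1 + ε) (by linarith : 0 ≤ 1 - cos (θ - ω)),
    mul_nonneg (sub_nonneg.2 h2.le) (by linarith : 0 ≤ 1 + cos (θ - ω))]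

lemma Nn_mul_U {ω ε θ : ℝ} (hU : U ω ε θ ≠ 0) : Nn ω ε θ * U ω ε θ = ε * sin (θ - ω) := by
  unfold Nn
  field_simp

lemma hasDerivAt_U' {ω ε θ : ℝ} (hU : U ω ε θ ≠ 0) :
    HasDerivAt (U ω ε) (Nn ω ε θ * U ω ε θ) θ := by
  rw [Nn_mul_U hU]
  exact hasDerivAt_U ω ε θ

lemma hasDerivAt_Nn {ω ε θ : ℝ} (hU : U ω ε θ ≠ 0) (hs : sin (θ - ω) ≠ 0) :
    HasDerivAt (Nn ω ε) (Nn ω ε θ * Y ω θ - Nn ω ε θ ^ 2) θ := by
  have h0 : HasDerivAt (fun t : ℝ => t - ω) 1 θ := (hasDerivAt_id θ).sub_const ω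
  have h2 := ((h0.sin).const_mul ε).div (hasDerivAt_U ω ε θ) hU
  refine h2.congr_deriv ?_
  unfold Nn Y
  field_simp

/-- `1 + n y = 1 / u` -/
lemma one_add_Nn_Y {ω ε θ : ℝ} (hU : U ω ε θ ≠ 0) (hs : sin (θ - ω) ≠ 0) :
    1 + Nn ω ε θ * Y ω θ = 1 / U ω ε θ := by
  unfold Nn Y
  field_simp
  unfold U
  ring

lemma hasDerivAt_S {K ω θ : ℝ} (hK : 0 < K) (hs : sin (θ - ω) ≠ 0) :
    HasDerivAt (S K ω) (-(4 * A1 K θ * kp K θ) - (1 + A1 K θ ^ 2 - kp K θ) * Y ω θ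
      + A1 K θ * (1 + Y ω θ ^ 2)) θ := by
  have h2 := ((hasDerivAt_kp hK θ).const_sub 1).sub ((hasDerivAt_A1 hK θ).mul (hasDerivAt_Y hs))
  refine h2.congr_deriv ?_
  ring

lemma hasDerivAt_Phi {K ω ε θ : ℝ} (hK : 0 < K) (hU : U ω ε θ ≠ 0) (hs : sin (θ - ω) ≠ 0) :
    HasDerivAt (Phi K ω ε)
      ((A1 K θ - 2 * Nn ω ε θ - Y ω θ) * Phi K ω ε θ + 3 * Lam K ω ε θ) θ := by
  have hn := hasDerivAt_Nn hU hs
  have h2 := ((hn.pow 2).add ((hasDerivAt_A1 hK θ).mul hn)).add (hasDerivAt_S hK hs)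
  refine h2.congr_deriv ?_
  unfold Phi Lam S
  ring

lemma hasDerivAt_G {K ω ε θ : ℝ} (hK : 0 < K) (hU : U ω ε θ ≠ 0) (hs : sin (θ - ω) ≠ 0) :
    HasDerivAt (G K ω ε) (U ω ε θ * sg K θ * S K ω θ / sin (θ - ω)) θ := by
  have h0 : HasDerivAt (fun t : ℝ => t - ω) 1 θ := (hasDerivAt_id θ).sub_const ω
  have hn := hasDerivAt_Nn hU hs
  have h2 := (((hasDerivAt_U' hU).mul (hasDerivAt_sg hK θ)).mul
    (hn.add (hasDerivAt_A1 hK θ))).div h0.sin hs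
  refine h2.congr_deriv ?_
  have hc : cos (θ - ω) = Y ω θ * sin (θ - ω) := by unfold Y; field_simp
  rw [hc]
  unfold S
  simp only [Pi.mul_apply, Pi.add_apply]
  field_simp
  ring

/-- `Ψ = u G` (`ε` times the function `u σ (n + a) / n`). -/
noncomputable def Psi (K ω ε θ : ℝ) : ℝ := U ω ε θ * G K ω ε θ

lemma hasDerivAt_Psi {K ω ε θ : ℝ} (hK : 0 < K) (hU : U ω ε θ ≠ 0) (hs : sin (θ - ω) ≠ 0) :
    HasDerivAt (Psi K ω ε) (U ω ε θ ^ 2 * sg K θ * Phi K ω ε θ / sin (θ - ω)) θ := by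
  have h2 := (hasDerivAt_U' hU).mul (hasDerivAt_G hK hU hs)
  refine h2.congr_deriv ?_
  unfold G Phi
  field_simp

end Pool.Agent.Helper75x.CE
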