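import Pool.Agent.Helper75x.CE.Ends

/-! A common frame for two planes of `ℝ³`. -/

set_option autoImplicit false
open Set Real

namespace Pool.Agent.Helper75x.CE

abbrev E3 := EuclideanSpace ℝ (Fin 3)

/-- A unit vector common to two planes. -/
lemma exists_common (u₁ w₁ u₂ w₂ : E3) (h1 : ‖u₁‖ = 1) (h2 : ‖w₁‖ = 1)
    (h3 : inner ℝ u₁ w₁ = 0) (h4 : ‖u₂‖ = 1) (h5 : ‖w₂‖ = 1) (h6 : inner ℝ u₂ w₂ = 0) :
    ∃ α₁ β₁ α₂ β₂ : ℝ, α₁ ^ 2 + β₁ ^ 2 = 1 ∧ α₂ ^ 2 + β₂ ^ 2 = 1 ∧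
      α₁ • u₁ + β₁ • w₁ = α₂ • u₂ + β₂ • w₂ := by
  let φ : (Fin 4 → ℝ) →ₗ[ℝ] E3 :=
    { toFun := fun g => g 0 • u₁ + g 1 • w₁ + g 2 • u₂ + g 3 • w₂
      map_add' := by
        intro g h
        simp only [Pi.add_apply]
        module
      map_smul' := by
        intro r g
        simp only [Pi.smul_apply, smul_eq_mul, RingHom.id_apply]
        module }
  have hker : LinearMap.ker φ ≠ ⊥ := by
    apply LinearMap.ker_ne_bot_of_finrank_lt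
    simp
  obtain ⟨g, hg, hg0⟩ := Submodule.exists_mem_ne_zero_of_ne_bot hker
  have hg' : g 0 • u₁ + g 1 • w₁ + g 2 • u₂ + g 3 • w₂ = 0 := hg
  have nrm : ∀ (u w : E3) (a b : ℝ), ‖u‖ = 1 → ‖w‖ = 1 → inner ℝ u w = 0 →
      inner ℝ (a • u + b • w) (a • u + b • w) = a ^ 2 + b ^ 2 := by
    intro u w a b hu hw huw
    rw [inner_add_left, inner_add_right, inner_add_right]
    simp only [inner_smul_left, inner_smul_right, real_inner_self_eq_norm_sq, hu, hw, huw,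
      real_inner_comm u w]
    simp
    ring
  have n1 := nrm u₁ w₁ (g 0) (g 1) h1 h2 h3
  have n2 := nrm u₂ w₂ (-g 2) (-g 3) h4 h5 h6
  have heq : g 0 • u₁ + g 1 • w₁ = (-g 2) • u₂ + (-g 3) • w₂ := by
    have : g 0 • u₁ + g 1 • w₁ = (g 0 • u₁ + g 1 • w₁ + g 2 • u₂ + g 3 • w₂)
      + ((-g 2) • u₂ + (-g 3) • w₂) := by module
    rw [this, hg', zero_add]
  have hN : g 0 ^ 2 + g 1 ^ 2 = g 2 ^ 2 + g 3 ^ 2 := by
    rw [← n1, heq, n2]; ring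
  have hpos : 0 < g 0 ^ 2 + g 1 ^ 2 := by
    by_contra hle
    rw [not_lt] at hle
    apply hg0
    have e0 : g 0 = 0 := by nlinarith [sq_nonneg (g 0), sq_nonneg (g 1)]
    have e1 : g 1 = 0 := by nlinarith [sq_nonneg (g 0), sq_nonneg (g 1)]
    have e2 : g 2 = 0 := by nlinarith [sq_nonneg (g 2), sq_nonneg (g 3)]
    have e3 : g 3 = 0 := by nlinarith [sq_nonneg (g 2), sq_nonneg (g 3)]
    ext i
    fin_cases i <;> simp [e0, e1, e2, e3]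
  obtain ⟨N, hN0, hN2⟩ : ∃ N : ℝ, 0 < N ∧ N ^ 2 = g 0 ^ 2 + g 1 ^ 2 :=
    ⟨√(g 0 ^ 2 + g 1 ^ 2), sqrt_pos.2 hpos, sq_sqrt hpos.le⟩
  refine ⟨g 0 / N, g 1 / N, -g 2 / N, -g 3 / N, ?_, ?_, ?_⟩
  · field_simp; linarith
  · field_simp; linarith
  · have := congrArg (fun z => (1 / N) • z) heq
    simp only [smul_add, smul_smul] at this
    convert this using 3 <;> ring_nf

lemma sq_eq_one_iff_of_nonneg_aux {t : ℝ} (ht : 0 ≤ t) : t ^ 2 = 1 ↔ t = 1 := by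
  constructor
  · intro h
    have : (t - 1) * (t + 1) = 0 := by linear_combination h
    rcases mul_eq_zero.1 this with h | h <;> linarith
  · rintro rfl; norm_num

/-- A frame adapted to the two planes. -/
lemma exists_frame (u₁ w₁ u₂ w₂ : E3) (h1 : ‖u₁‖ = 1) (h2 : ‖w₁‖ = 1)
    (h3 : inner ℝ u₁ w₁ = 0) (h4 : ‖u₂‖ = 1) (h5 : ‖w₂‖ = 1) (h6 : inner ℝ u₂ w₂ = 0) :
    ∃ (x y y' : E3) (k ω p₁ p₂ D η : ℝ),
      inner ℝ x x = 1 ∧ inner ℝ y y = 1 ∧ inner ℝ y' y' = 1 ∧ inner ℝ x y = 0 ∧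
      inner ℝ x y' = 0 ∧ inner ℝ y y' = k ∧ 0 ≤ k ∧ k ≤ 1 ∧ 0 ≤ ω ∧ ω ≤ π / 2 ∧
      p₁ ^ 2 + p₂ ^ 2 = 1 ∧ D ^ 2 = 1 ∧ η ^ 2 = 1 ∧
      u₁ = p₁ • x + p₂ • y' ∧ w₁ = D • ((-p₂) • x + p₁ • y') ∧
      u₂ = -(cos ω • x + sin ω • y) ∧ w₂ = η • (sin ω • x - cos ω • y) := by
  -- choose the sign of the common vector
  obtain ⟨α₁, β₁, α₂, β₂, hα₁, hα₂, hx, hneg⟩ : ∃ α₁ β₁ α₂ β₂ : ℝ, α₁ ^ 2 + β₁ ^ 2 = 1 ∧
      α₂ ^ 2 + β₂ ^ 2 = 1 ∧ α₁ • u₁ + β₁ • w₁ = α₂ • u₂ + β₂ • w₂ ∧ α₂ ≤ 0 := by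
    obtain ⟨α₁, β₁, α₂, β₂, hα₁, hα₂, hx⟩ := exists_common u₁ w₁ u₂ w₂ h1 h2 h3 h4 h5 h6
    rcases le_or_gt α₂ 0 with h | h
    · exact ⟨α₁, β₁, α₂, β₂, hα₁, hα₂, hx, h⟩
    · refine ⟨-α₁, -β₁, -α₂, -β₂, by linarith, by linarith, ?_, by linarith⟩
      have := congrArg (fun z => (-1 : ℝ) • z) hx
      simp only [smul_add, smul_smul] at this
      convert this using 3 <;> ring_nf
  have ip : ∀ (u w : E3) (a b c d : ℝ), ‖u‖ = 1 → ‖w‖ = 1 → inner ℝ u w = 0 →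
      inner ℝ (a • u + b • w) (c • u + d • w) = a * c + b * d := by
    intro u w a b c d hu hw huw
    rw [inner_add_left, inner_add_right, inner_add_right]
    simp only [inner_smul_left, inner_smul_right, real_inner_self_eq_norm_sq, hu, hw, huw,
      real_inner_comm u w]
    simp
    ring
  obtain ⟨x, hxdef⟩ : ∃ x, x = α₁ • u₁ + β₁ • w₁ := ⟨_, rfl⟩
  obtain ⟨z', hz'⟩ : ∃ z', z' = (-β₁) • u₁ + α₁ • w₁ := ⟨_, rfl⟩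
  obtain ⟨z, hz⟩ : ∃ z, z = (-β₂) • u₂ + α₂ • w₂ := ⟨_, rfl⟩
  have hxdef2 : x = α₂ • u₂ + β₂ • w₂ := by rw [hxdef, hx]
  have hu₁ : u₁ = α₁ • x - β₁ • z' := by
    rw [hxdef, hz']
    have : α₁ • (α₁ • u₁ + β₁ • w₁) - β₁ • ((-β₁) • u₁ + α₁ • w₁) =
      (α₁ ^ 2 + β₁ ^ 2) • u₁ := by module
    rw [this, hα₁, one_smul]
  have hw₁ : w₁ = β₁ • x + α₁ • z' := by
    rw [hxdef, hz']
    have : β₁ • (α₁ • u₁ + β₁ • w₁) + α₁ • ((-β₁) • u₁ + α₁ • w₁) =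
      (α₁ ^ 2 + β₁ ^ 2) • w₁ := by module
    rw [this, hα₁, one_smul]
  have hu₂ : u₂ = α₂ • x - β₂ • z := by
    rw [hxdef2, hz]
    have : α₂ • (α₂ • u₂ + β₂ • w₂) - β₂ • ((-β₂) • u₂ + α₂ • w₂) =
      (α₂ ^ 2 + β₂ ^ 2) • u₂ := by module
    rw [this, hα₂, one_smul]
  have hw₂ : w₂ = β₂ • x + α₂ • z := by
    rw [hxdef2, hz]
    have : β₂ • (α₂ • u₂ + β₂ • w₂) + α₂ • ((-β₂) • u₂ + α₂ • w₂) =
      (α₂ ^ 2 + β₂ ^ 2) • w₂ := by module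
    rw [this, hα₂, one_smul]
  have ixx : inner ℝ x x = 1 := by
    rw [hxdef, ip u₁ w₁ _ _ _ _ h1 h2 h3]; linarith
  have izz' : inner ℝ z' z' = 1 := by
    rw [hz', ip u₁ w₁ _ _ _ _ h1 h2 h3]; linarith
  have ixz' : inner ℝ x z' = 0 := by
    rw [hxdef, hz', ip u₁ w₁ _ _ _ _ h1 h2 h3]; ring
  have izz : inner ℝ z z = 1 := by
    rw [hz, ip u₂ w₂ _ _ _ _ h4 h5 h6]; linarith
  have ixz : inner ℝ x z = 0 := by
    rw [hxdef2, hz, ip u₂ w₂ _ _ _ _ h4 h5 h6]; ring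
  -- signs
  obtain ⟨τ₂, hτ₂, hβ₂⟩ : ∃ τ₂ : ℝ, τ₂ ^ 2 = 1 ∧ β₂ * τ₂ = |β₂| := by
    rcases le_or_gt 0 β₂ with h | h
    · exact ⟨1, by norm_num, by rw [abs_of_nonneg h]; ring⟩
    · exact ⟨-1, by norm_num, by rw [abs_of_neg h]; ring⟩
  obtain ⟨τ, hτ, hk⟩ : ∃ τ : ℝ, τ ^ 2 = 1 ∧ 0 ≤ inner ℝ (τ₂ • z) (τ • z') := by
    rcases le_or_gt 0 (inner ℝ (τ₂ • z) z') with h | h
    · exact ⟨1, by norm_num, by rw [one_smul]; exact h⟩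
    · refine ⟨-1, by norm_num, ?_⟩
      rw [inner_smul_right]
      simp only [neg_mul, one_mul]
      linarith
  have nrm1 : ∀ (u : E3) (t : ℝ), inner ℝ u u = 1 → t ^ 2 = 1 → ‖t • u‖ = 1 := by
    intro u t hu ht
    have h7 : ‖u‖ = 1 := by
      rw [real_inner_self_eq_norm_sq] at hu
      exact (sq_eq_one_iff_of_nonneg_aux (norm_nonneg u)).1 hu
    rw [norm_smul, h7, mul_one, Real.norm_eq_abs]
    rw [← sqrt_sq_eq_abs, ht, sqrt_one]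
  have nz : ‖τ₂ • z‖ = 1 := nrm1 z τ₂ izz hτ₂
  have nz' : ‖τ • z'‖ = 1 := nrm1 z' τ izz' hτ
  have hα₂b : -1 ≤ -α₂ ∧ -α₂ ≤ 1 := by constructor <;> nlinarith [sq_nonneg β₂]
  refine ⟨x, τ₂ • z, τ • z', inner ℝ (τ₂ • z) (τ • z'), arccos (-α₂), α₁, -(β₁ * τ), τ, τ₂,
    ixx, ?_, ?_, ?_, ?_, rfl, hk, ?_, arccos_nonneg _, ?_, ?_, hτ, hτ₂, ?_, ?_, ?_, ?_⟩
  · rw [real_inner_self_eq_norm_sq, nz]; norm_num
  · rw [real_inner_self_eq_norm_sq, nz']; norm_num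
  · rw [inner_smul_right, ixz, mul_zero]
  · rw [inner_smul_right, ixz', mul_zero]
  · have := real_inner_le_norm (τ₂ • z) (τ • z')
    rw [nz, nz'] at this
    linarith
  · rw [arccos_le_pi_div_two]; linarith
  · nlinarith
  · rw [smul_smul, show -(β₁ * τ) * τ = -β₁ * τ ^ 2 by ring, hτ, mul_one, neg_smul,
      ← sub_eq_add_neg]
    exact hu₁
  · rw [neg_neg, smul_add, smul_smul, smul_smul, smul_smul,
      show τ * (β₁ * τ) = β₁ * τ ^ 2 by ring, show τ * α₁ * τ = α₁ * τ ^ 2 by ring, hτ,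
      mul_one, mul_one]
    exact hw₁
  · have hsin : sin (arccos (-α₂)) = |β₂| := by
      rw [sin_arccos, show 1 - (-α₂) ^ 2 = β₂ ^ 2 by linarith, sqrt_sq_eq_abs]
    rw [cos_arccos hα₂b.1 hα₂b.2, hsin, ← hβ₂, smul_smul,
      show β₂ * τ₂ * τ₂ = β₂ * τ₂ ^ 2 by ring, hτ₂, mul_one]
    rw [hu₂]
    module
  · have hsin : sin (arccos (-α₂)) = |β₂| := by
      rw [sin_arccos, show 1 - (-α₂) ^ 2 = β₂ ^ 2 by linarith, sqrt_sq_eq_abs]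
    rw [cos_arccos hα₂b.1 hα₂b.2, hsin, ← hβ₂, smul_sub, smul_smul, smul_smul, smul_smul,
      show τ₂ * (β₂ * τ₂) = β₂ * τ₂ ^ 2 by ring, show τ₂ * -α₂ * τ₂ = -α₂ * τ₂ ^ 2 by ring,
      hτ₂, mul_one, mul_one]
    rw [hw₂]
    module

end Pool.Agent.Helper75x.CE
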