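import Pool.Agent.Helper75x.CE.Frame
import Pool.Agent.Helper75x.CE.Defs

/-! Reduction of the geometric statement to `Tset_card`. -/

set_option autoImplicit false
open Set Real

namespace Pool.Agent.Helper75x.CE

lemma hasDerivAt_ellipse (F u w : E3) (a e t : ℝ) :
    HasDerivAt (ellipse F u w a e)
      ((-(a * sin t)) • u + (a * √(1 - e ^ 2) * cos t) • w) t := by
  have h1 : HasDerivAt (fun t => a * (e + cos t)) (-(a * sin t)) t :=
    (((hasDerivAt_cos t).const_add e).const_mul a).congr_deriv (by ring)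
  have h2 : HasDerivAt (fun t => a * √(1 - e ^ 2) * sin t) (a * √(1 - e ^ 2) * cos t) t :=
    (hasDerivAt_sin t).const_mul _
  have h3 := ((h1.smul_const u).const_add F).add (h2.smul_const w)
  exact h3

lemma deriv_dist_left {p : ℝ → E3} {p' : E3} {s : ℝ} (hp : HasDerivAt p p' s) (c : E3) :
    deriv (fun s' => dist (p s') c ^ 2) s = 2 * inner ℝ (p s - c) p' := by
  have h := (hp.sub_const c).norm_sq
  simp only [dist_eq_norm]
  exact h.deriv

lemma deriv_dist_right {q : ℝ → E3} {q' : E3} {t : ℝ} (hq : HasDerivAt q q' t) (c : E3) :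
    deriv (fun t' => dist c (q t') ^ 2) t = -(2 * inner ℝ (c - q t) q') := by
  have h := (hq.const_sub c).norm_sq
  simp only [dist_eq_norm]
  rw [h.deriv, inner_neg_right]
  ring

/-- The circle is the first curve. -/
theorem circle_ellipse (F u₁ w₁ u₂ w₂ : E3) (R a e : ℝ) (hR : 0 < R) (ha : 0 < a)
    (he : 0 < e) (he1 : e < 1) (h1 : ‖u₁‖ = 1) (h2 : ‖w₁‖ = 1)
    (h3 : inner ℝ u₁ w₁ = 0) (h4 : ‖u₂‖ = 1) (h5 : ‖w₂‖ = 1) (h6 : inner ℝ u₂ w₂ = 0) :
    (stationaryPoints (ellipse F u₁ w₁ R 0) (ellipse F u₂ w₂ a e)).Finite ∧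
      (stationaryPoints (ellipse F u₁ w₁ R 0) (ellipse F u₂ w₂ a e)).ncard ≤ 10 := by
  obtain ⟨x, y, y', k, ω, p₁, p₂, D, η, ixx, iyy, iyy', ixy, ixy', hk, hk0, hk1, hω, hω2,
    hp, hD, hη, hu₁, hw₁, hu₂, hw₂⟩ := exists_frame u₁ w₁ u₂ w₂ h1 h2 h3 h4 h5 h6
  obtain ⟨B, hB, hB2⟩ : ∃ B : ℝ, 0 < B ∧ B ^ 2 = 1 - e ^ 2 :=
    ⟨√(1 - e ^ 2), sqrt_pos.2 (by nlinarith), sq_sqrt (by nlinarith)⟩
  have hBsqrt : √(1 - e ^ 2) = B := by rw [← hB2, sqrt_sq hB.le]
  have hω' := sin_sq_add_cos_sq ω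
  have hη0 : η ≠ 0 := by rintro rfl; norm_num at hη
  have hD0 : D ≠ 0 := by rintro rfl; norm_num at hD
  obtain ⟨v, hv⟩ : ∃ v, v = a * B ^ 2 / R := ⟨_, rfl⟩
  have hv0 : 0 < v := by rw [hv]; positivity
  have hT := Tset_card (k := k) (ω := ω) (e := e) (v := v) hk0 hk1 he he1 hv0 hω hω2
  let g : ℝ × ℝ × ℝ × ℝ → E3 × E3 := fun p =>
    (F + (R * p.1) • x + (R * p.2.1) • y',
      F + (a * B ^ 2 / (1 + e * cos ω * p.2.2.1 + e * sin ω * p.2.2.2) * p.2.2.1) • x +
        (a * B ^ 2 / (1 + e * cos ω * p.2.2.1 + e * sin ω * p.2.2.2) * p.2.2.2) • y)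
  have hsub : stationaryPoints (ellipse F u₁ w₁ R 0) (ellipse F u₂ w₂ a e) ⊆
      g '' Tset k ω e v := by
    rintro _ ⟨s, t, rfl, hs, ht⟩
    rw [deriv_dist_left (hasDerivAt_ellipse F u₁ w₁ R 0 s)] at hs
    rw [deriv_dist_right (hasDerivAt_ellipse F u₂ w₂ a e t)] at ht
    -- coordinates
    obtain ⟨C, hC⟩ : ∃ C, C = p₁ * cos s - D * p₂ * sin s := ⟨_, rfl⟩
    obtain ⟨S, hS⟩ : ∃ S, S = p₂ * cos s + D * p₁ * sin s := ⟨_, rfl⟩
    obtain ⟨X1, hX1⟩ : ∃ X1, X1 = -(a * (e + cos t)) * cos ω + a * B * sin t * η * sin ω :=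
      ⟨_, rfl⟩
    obtain ⟨X2, hX2⟩ : ∃ X2, X2 = -(a * (e + cos t)) * sin ω - a * B * sin t * η * cos ω :=
      ⟨_, rfl⟩
    obtain ⟨Q1, hQ1⟩ : ∃ Q1, Q1 = a * sin t * cos ω + a * B * cos t * η * sin ω := ⟨_, rfl⟩
    obtain ⟨Q2, hQ2⟩ : ∃ Q2, Q2 = a * sin t * sin ω - a * B * cos t * η * cos ω := ⟨_, rfl⟩
    have eP : ellipse F u₁ w₁ R 0 s = F + (R * C) • x + (R * S) • y' := by
      unfold ellipse
      rw [hu₁, hw₁, hC, hS]
      norm_num
      module
    have eQ : ellipse F u₂ w₂ a e t = F + X1 • x + X2 • y := by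
      unfold ellipse
      rw [hu₂, hw₂, hX1, hX2, hBsqrt]
      module
    have eP' : (-(R * sin s)) • u₁ + (R * √(1 - (0 : ℝ) ^ 2) * cos s) • w₁ =
        (-(R * D * S)) • x + (R * D * C) • y' := by
      have hs0 : √(1 - (0 : ℝ) ^ 2) = 1 := by norm_num
      rw [hu₁, hw₁, hC, hS, hs0]
      have : (-(R * D * (p₂ * cos s + D * p₁ * sin s))) • x +
          (R * D * (p₁ * cos s - D * p₂ * sin s)) • y' =
          (-(R * D * p₂ * cos s + R * D ^ 2 * p₁ * sin s)) • x +
          (R * D * p₁ * cos s - R * D ^ 2 * p₂ * sin s) • y' := by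
        module
      rw [this, hD]
      module
    have eQ' : (-(a * sin t)) • u₂ + (a * √(1 - e ^ 2) * cos t) • w₂ = Q1 • x + Q2 • y := by
      rw [hu₂, hw₂, hQ1, hQ2, hBsqrt]
      module
    rw [eP, eQ, eP'] at hs
    rw [eP, eQ, eQ'] at ht
    have d1 : F + (R * C) • x + (R * S) • y' - (F + X1 • x + X2 • y) =
        (R * C - X1) • x + (R * S) • y' + (-X2) • y := by module
    rw [d1] at hs ht
    have iy'x : inner ℝ y' x = 0 := by rw [real_inner_comm]; exact ixy'
    have iyx : inner ℝ y x = 0 := by rw [real_inner_comm]; exact ixy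
    have iy'y : inner ℝ y' y = k := by rw [real_inner_comm]; exact hk
    have hs' : X1 * S = k * C * X2 := by
      simp only [inner_add_left, inner_add_right, inner_smul_left, inner_smul_right, ixx, ixy',
        iyy', hk, iy'x, iyx] at hs
      simp at hs
      have hRD : R * D ≠ 0 := mul_ne_zero hR.ne' hD0
      apply mul_left_cancel₀ hRD
      linear_combination hs
    have ht' : (R * C - X1) * Q1 + (k * R * S - X2) * Q2 = 0 := by
      simp only [inner_add_left, inner_add_right, inner_smul_left, inner_smul_right, ixx, ixy,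
        iyy, iy'y, iy'x, iyx] at ht
      simp at ht
      linear_combination ht
    -- the polar coordinates of the point of the ellipse
    obtain ⟨r, hr⟩ : ∃ r, r = a * (1 + e * cos t) := ⟨_, rfl⟩
    have hr0 : 0 < r := by
      rw [hr]
      have := neg_one_le_cos t
      apply mul_pos ha
      nlinarith
    obtain ⟨c, hc⟩ : ∃ c, c = X1 / r := ⟨_, rfl⟩
    obtain ⟨z, hz⟩ : ∃ z, z = X2 / r := ⟨_, rfl⟩
    have hX1r : X1 = r * c := by rw [hc]; field_simp
    have hX2r : X2 = r * z := by rw [hz]; field_simp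
    have hst := sin_sq_add_cos_sq t
    have hcz : c ^ 2 + z ^ 2 = 1 := by
      have : (c ^ 2 + z ^ 2) * r ^ 2 = r ^ 2 := by
        have e1 : (c ^ 2 + z ^ 2) * r ^ 2 = X1 ^ 2 + X2 ^ 2 := by rw [hX1r, hX2r]; ring
        rw [e1, hX1, hX2, hr]
        have e2 : B ^ 2 * η ^ 2 = 1 - e ^ 2 := by rw [hη, hB2, mul_one]
        linear_combination (a ^ 2 * (e + cos t) ^ 2 + a ^ 2 * B ^ 2 * sin t ^ 2 * η ^ 2) * hω'
          + a ^ 2 * sin t ^ 2 * e2 + a ^ 2 * (1 - e ^ 2) * hst
      have hr2 : r ^ 2 ≠ 0 := by positivity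
      have h7 : (c ^ 2 + z ^ 2 - 1) * r ^ 2 = 0 := by linarith
      linarith [(mul_eq_zero.1 h7).resolve_right hr2]
    have hur : (1 + e * cos ω * c + e * sin ω * z) * r = a * B ^ 2 := by
      have e1 : (1 + e * cos ω * c + e * sin ω * z) * r = r + e * cos ω * X1 + e * sin ω * X2 := by
        rw [hX1r, hX2r]; ring
      rw [e1, hX1, hX2, hr, hB2]
      linear_combination (-(a * e * (e + cos t))) * hω'
    have hu0 : 0 < 1 + e * cos ω * c + e * sin ω * z := by
      by_contra hle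
      rw [not_lt] at hle
      have h8 : (1 + e * cos ω * c + e * sin ω * z) * r ≤ 0 :=
        mul_nonpos_of_nonpos_of_nonneg hle hr0.le
      rw [hur] at h8
      have : 0 < a * B ^ 2 := by positivity
      linarith
    have hρ : a * B ^ 2 / (1 + e * cos ω * c + e * sin ω * z) = r := by
      rw [← hur]; field_simp
    -- the tangent direction
    have hQ1' : B * Q1 = -(η * r * (z + e * sin ω)) := by
      have e1 : r * (z + e * sin ω) = X2 + e * sin ω * r := by rw [hX2r]; ring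
      have e2 : η * r * (z + e * sin ω) = η * (X2 + e * sin ω * r) := by rw [← e1]; ring
      rw [e2, hQ1, hX2, hr]
      linear_combination (-(a * B * sin t * cos ω)) * hη + (a * cos t * η * sin ω) * hB2
    have hQ2' : B * Q2 = η * r * (c + e * cos ω) := by
      have e1 : r * (c + e * cos ω) = X1 + e * cos ω * r := by rw [hX1r]; ring
      have e2 : η * r * (c + e * cos ω) = η * (X1 + e * cos ω * r) := by rw [← e1]; ring
      rw [e2, hQ2, hX1, hr]
      linear_combination (-(a * B * sin t * sin ω)) * hη - (a * cos t * η * cos ω) * hB2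
    have hmain : R * ((z + e * sin ω) * C - k * (c + e * cos ω) * S) =
        r * (e * sin ω * c - e * cos ω * z) := by
      have hηr : η * r ≠ 0 := mul_ne_zero hη0 hr0.ne'
      apply mul_left_cancel₀ hηr
      have e1 : B * ((R * C - X1) * Q1 + (k * R * S - X2) * Q2) = 0 := by rw [ht', mul_zero]
      have e2 : B * ((R * C - X1) * Q1 + (k * R * S - X2) * Q2) =
        (R * C - r * c) * (B * Q1) + (k * R * S - r * z) * (B * Q2) := by
        rw [hX1r, hX2r]; ring
      rw [e2, hQ1', hQ2'] at e1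
      linear_combination (-1) * e1
    have hIsT : IsT k ω e v C S c z := by
      refine ⟨?_, hcz, ?_, ?_⟩
      · rw [hC, hS]
        have := sin_sq_add_cos_sq s
        linear_combination (cos s ^ 2 + D ^ 2 * sin s ^ 2) * hp + sin s ^ 2 * hD + this
      · apply mul_left_cancel₀ hr0.ne'
        rw [hX1r, hX2r] at hs'
        linear_combination hs'
      · rw [hv]
        have e1 : a * B ^ 2 / R * (e * sin ω * c - e * cos ω * z) =
            (1 + e * cos ω * c + e * sin ω * z) * (r * (e * sin ω * c - e * cos ω * z)) / R := by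
          rw [← hur]; ring
        rw [e1, ← hmain]
        field_simp
    refine ⟨(C, S, c, z), hIsT, ?_⟩
    simp only [g]
    rw [hρ, eP, eQ, ← hX1r, ← hX2r]
  refine ⟨(hT.1.image g).subset hsub, ?_⟩
  exact (ncard_le_ncard hsub (hT.1.image g)).trans ((ncard_image_le hT.1).trans hT.2)

lemma stationaryPoints_swap (p q : ℝ → E3) :
    stationaryPoints p q ⊆ Prod.swap '' stationaryPoints q p := by
  rintro _ ⟨s, t, rfl, hs, ht⟩
  refine ⟨(q t, p s), ⟨t, s, rfl, ?_, ?_⟩, rfl⟩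
  · simp only [dist_comm (q _) (p s)]
    exact ht
  · simp only [dist_comm (q t) (p _)]
    exact hs

end Pool.Agent.Helper75x.CE
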