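import Pool.Agent.Helper75x.CE.Count

/-! The algebraic set of stationary points; the case `0 < k₀ < 1`. -/

set_option autoImplicit false
open Set Real

namespace Pool.Agent.Helper75x.CE

/-- `(C, S)` is the direction of the point of the circle, `(c, s)` that of the point of the
ellipse. -/
def IsT (k ω e v C S c s : ℝ) : Prop :=
  C ^ 2 + S ^ 2 = 1 ∧ c ^ 2 + s ^ 2 = 1 ∧ S * c = k * C * s ∧
    v * (e * sin ω * c - e * cos ω * s) = (1 + e * cos ω * c + e * sin ω * s) *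
      ((s + e * sin ω) * C - k * (c + e * cos ω) * S)

def Tset (k ω e v : ℝ) : Set (ℝ × ℝ × ℝ × ℝ) :=
  {p | IsT k ω e v p.1 p.2.1 p.2.2.1 p.2.2.2}

lemma exists_angle {ω c s : ℝ} (h : c ^ 2 + s ^ 2 = 1) (hs : 0 < s * cos ω - c * sin ω) :
    ∃ θ ∈ Ioo ω (ω + π), cos θ = c ∧ sin θ = s := by
  have hω := sin_sq_add_cos_sq ω
  obtain ⟨c', hc'⟩ : ∃ c', c' = c * cos ω + s * sin ω := ⟨_, rfl⟩
  obtain ⟨s', hs'⟩ : ∃ s', s' = s * cos ω - c * sin ω := ⟨_, rfl⟩
  rw [← hs'] at hs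
  have h1 : c' ^ 2 + s' ^ 2 = 1 := by
    rw [hc', hs']
    linear_combination (sin ω ^ 2 + cos ω ^ 2) * h + hω
  have hc1 : c' < 1 := by nlinarith
  have hc2 : -1 < c' := by nlinarith
  refine ⟨ω + arccos c', ⟨?_, ?_⟩, ?_, ?_⟩
  · have := arccos_pos.2 hc1
    linarith
  · have : arccos c' < π := by
      rw [arccos_lt_pi]
      exact hc2
    linarith
  · rw [cos_add, cos_arccos hc2.le hc1.le, sin_arccos,
      show 1 - c' ^ 2 = s' ^ 2 by linarith, sqrt_sq hs.le, hc', hs']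
    linear_combination c * hω
  · rw [sin_add, cos_arccos hc2.le hc1.le, sin_arccos,
      show 1 - c' ^ 2 = s' ^ 2 by linarith, sqrt_sq hs.le, hc', hs']
    linear_combination s * hω

/-- The parametrisation of the generic part of `Tset`. -/
noncomputable def Fmap (k ω ε v δ θ : ℝ) : ℝ × ℝ × ℝ × ℝ :=
  (Psi (k ^ 2) ω ε θ / (v * ε) * (δ * cos θ) / sg (k ^ 2) θ,
    Psi (k ^ 2) ω ε θ / (v * ε) * (k * (δ * sin θ)) / sg (k ^ 2) θ, δ * cos θ, δ * sin θ)

lemma T_point {k ω e v δ θ C S : ℝ} (hk : 0 < k) (he : 0 < e) (he1 : e < 1)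
    (hv : 0 < v) (hδ : δ ^ 2 = 1) (hθ : θ ∈ Ioo ω (ω + π))
    (h : IsT k ω e v C S (δ * cos θ) (δ * sin θ)) :
    θ ∈ Zs (k ^ 2) ω (-(δ * e)) v ∧
      (C, S, δ * cos θ, δ * sin θ) = Fmap k ω (-(δ * e)) v δ θ := by
  obtain ⟨h1, -, h3, h4⟩ := h
  have hK : 0 < k ^ 2 := by positivity
  have hs := sin_phi_pos hθ.1 hθ.2
  have hδ' : δ = 1 ∨ δ = -1 := by
    have : (δ - 1) * (δ + 1) = 0 := by ring_nf; linarith
    rcases mul_eq_zero.1 this with h | h
    · left; linarith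
    · right; linarith
  have hδ0 : δ ≠ 0 := by rintro rfl; norm_num at hδ
  have hε1 : -(δ * e) < 1 := by rcases hδ' with h | h <;> rw [h] <;> linarith
  have hε2 : -1 < -(δ * e) := by rcases hδ' with h | h <;> rw [h] <;> linarith
  obtain ⟨ε, hε⟩ : ∃ ε, ε = -(δ * e) := ⟨_, rfl⟩
  rw [← hε] at hε1 hε2 ⊢
  have hε0 : ε ≠ 0 := by
    rw [hε]; exact neg_ne_zero.2 (mul_ne_zero hδ0 he.ne')
  have hσ := sg_pos hK θ
  have hσ2 : sg (k ^ 2) θ ^ 2 = cos θ ^ 2 + k ^ 2 * sin θ ^ 2 := sq_sqrt (g2_pos hK θ).le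
  have hU := U_pos hε2 hε1 ω θ
  -- the sign `η`
  obtain ⟨η, hη⟩ : ∃ η, η = (C * (δ * cos θ) + k * S * (δ * sin θ)) / sg (k ^ 2) θ := ⟨_, rfl⟩
  have hη' : η * sg (k ^ 2) θ = C * (δ * cos θ) + k * S * (δ * sin θ) := by
    rw [hη]; field_simp
  have h3' : S * cos θ = k * C * sin θ := by
    have : δ * (S * cos θ) = δ * (k * C * sin θ) := by linear_combination h3
    exact mul_left_cancel₀ hδ0 this
  have hC : C = η * (δ * cos θ) / sg (k ^ 2) θ := by
    rw [eq_div_iff hσ.ne']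
    apply mul_right_cancel₀ hσ.ne'
    have : C * sg (k ^ 2) θ * sg (k ^ 2) θ = C * sg (k ^ 2) θ ^ 2 := by ring
    rw [this, hσ2]
    have : η * (δ * cos θ) * sg (k ^ 2) θ = (η * sg (k ^ 2) θ) * (δ * cos θ) := by ring
    rw [this, hη']
    linear_combination (-k * sin θ) * h3' - (C * cos θ ^ 2 + k * S * sin θ * cos θ) * hδ
  have hS : S = η * (k * (δ * sin θ)) / sg (k ^ 2) θ := by
    rw [eq_div_iff hσ.ne']
    apply mul_right_cancel₀ hσ.ne'
    have : S * sg (k ^ 2) θ * sg (k ^ 2) θ = S * sg (k ^ 2) θ ^ 2 := by ring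
    rw [this, hσ2]
    have : η * (k * (δ * sin θ)) * sg (k ^ 2) θ = (η * sg (k ^ 2) θ) * (k * (δ * sin θ)) := by ring
    rw [this, hη']
    linear_combination cos θ * h3' - (k * C * cos θ * sin θ + k ^ 2 * S * sin θ ^ 2) * hδ
  have hη2 : η ^ 2 = 1 := by
    have h5 : (C ^ 2 + S ^ 2) * sg (k ^ 2) θ ^ 2 = η ^ 2 * sg (k ^ 2) θ ^ 2 := by
      rw [hC, hS]
      field_simp
      rw [hσ2]
      linear_combination (cos θ ^ 2 + k ^ 2 * sin θ ^ 2) * η ^ 2 * hδ
    rw [h1, one_mul] at h5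
    have : (sg (k ^ 2) θ ^ 2) ≠ 0 := by positivity
    have h6 : (η ^ 2 - 1) * sg (k ^ 2) θ ^ 2 = 0 := by linarith
    rcases mul_eq_zero.1 h6 with h | h
    · linarith
    · exact absurd h this
  -- the main equation
  have hmain : v * ε = η * Psi (k ^ 2) ω ε θ := by
    have hsin : sin (θ - ω) ≠ 0 := hs.ne'
    apply mul_right_cancel₀ hsin
    have e1 : η * Psi (k ^ 2) ω ε θ * sin (θ - ω) =
        η * U ω ε θ * (sg (k ^ 2) θ * (U ω ε θ * Nn ω ε θ + U ω ε θ * A1 (k ^ 2) θ)) := by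
      unfold Psi G
      field_simp
    have e2 : sg (k ^ 2) θ * (U ω ε θ * Nn ω ε θ + U ω ε θ * A1 (k ^ 2) θ) =
        (g2 (k ^ 2) θ * (ε * sin (θ - ω)) + U ω ε θ * ((1 - k ^ 2) * sin θ * cos θ))
          / sg (k ^ 2) θ := by
      rw [eq_div_iff hσ.ne']
      have e3 : U ω ε θ * Nn ω ε θ = ε * sin (θ - ω) := by
        rw [mul_comm]; exact Nn_mul_U hU.ne'
      have e4 : g2 (k ^ 2) θ * A1 (k ^ 2) θ = (1 - k ^ 2) * sin θ * cos θ := by
        unfold A1
        have := (g2_pos hK θ).ne'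
        field_simp
      have e5 : sg (k ^ 2) θ ^ 2 = g2 (k ^ 2) θ := sq_sqrt (g2_pos hK θ).le
      rw [e3, ← e4]
      linear_combination (ε * sin (θ - ω) + U ω ε θ * A1 (k ^ 2) θ) * e5
    rw [e1, e2]
    have e6 : v * ε * sin (θ - ω) = v * (e * sin ω * (δ * cos θ) - e * cos ω * (δ * sin θ)) := by
      rw [sin_sub, hε]; ring
    rw [e6, h4]
    have e7 : (1 + e * cos ω * (δ * cos θ) + e * sin ω * (δ * sin θ)) = U ω ε θ := by
      unfold U
      rw [cos_sub, hε]; ring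
    rw [e7, hC, hS]
    have e8 : (g2 (k ^ 2) θ * (ε * sin (θ - ω)) + U ω ε θ * ((1 - k ^ 2) * sin θ * cos θ)) =
        (δ * sin θ + e * sin ω) * (δ * cos θ)
          - k ^ 2 * (δ * cos θ + e * cos ω) * (δ * sin θ) := by
      unfold U
      rw [g2_eq, sin_sub, cos_sub, hε]
      linear_combination (-(1 - k ^ 2) * sin θ * cos θ) * hδ
        + δ * e * (1 - k ^ 2) * sin θ * cos ω * (sin_sq_add_cos_sq θ)
    rw [e8]
    field_simp
  have hP : Psi (k ^ 2) ω ε θ = η * (v * ε) := by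
    rw [hmain]
    linear_combination (-Psi (k ^ 2) ω ε θ) * hη2
  have hηP : Psi (k ^ 2) ω ε θ / (v * ε) = η := by
    rw [hP]
    field_simp
  refine ⟨⟨hθ, ?_⟩, ?_⟩
  · rw [hP, mul_pow, hη2, one_mul]
  · unfold Fmap
    rw [hηP, ← hC, ← hS]

/-- The exceptional set of four points. -/
def E4 (ω : ℝ) : Set (ℝ × ℝ × ℝ × ℝ) :=
  (fun q : ℝ × ℝ => (q.1 * cos ω, q.1 * sin ω, q.2 * cos ω, q.2 * sin ω)) ''
    (({1, -1} : Set ℝ) ×ˢ ({1, -1} : Set ℝ))

lemma E4_card (ω : ℝ) : (E4 ω).Finite ∧ (E4 ω).ncard ≤ 4 := by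
  have hf : (({1, -1} : Set ℝ) ×ˢ ({1, -1} : Set ℝ)).Finite :=
    (toFinite _).prod (toFinite _)
  refine ⟨hf.image _, (ncard_image_le hf).trans ?_⟩
  rw [ncard_prod]
  have : ({1, -1} : Set ℝ).ncard ≤ 2 := ncard_insert_le 1 {-1} |>.trans (by simp)
  nlinarith

/-- `c² + s² = 1` and `s cos ω = c sin ω` give `(c, s) = ± (cos ω, sin ω)`. -/
lemma parallel {ω c s : ℝ} (h : c ^ 2 + s ^ 2 = 1) (hs : s * cos ω - c * sin ω = 0) :
    ∃ δ : ℝ, (δ = 1 ∨ δ = -1) ∧ c = δ * cos ω ∧ s = δ * sin ω := by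
  have hω := sin_sq_add_cos_sq ω
  refine ⟨c * cos ω + s * sin ω, ?_, ?_, ?_⟩
  · have h1 : (c * cos ω + s * sin ω) ^ 2 = 1 := by
      linear_combination (sin ω ^ 2 + cos ω ^ 2) * h + hω - (s * cos ω - c * sin ω) * hs
    have : (c * cos ω + s * sin ω - 1) * (c * cos ω + s * sin ω + 1) = 0 := by
      linear_combination h1
    rcases mul_eq_zero.1 this with h | h
    · left; linarith
    · right; linarith
  · linear_combination (-c) * hω - sin ω * hs
  · linear_combination (-s) * hω + cos ω * hs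

lemma mem_pm {δ : ℝ} (h : δ = 1 ∨ δ = -1) : δ ∈ ({1, -1} : Set ℝ) := by
  simpa using h

/-- Points of `Tset` with `u' = 0`. -/
lemma T_degenerate {k ω e v C S c s : ℝ} (hk : 0 ≤ k) (hk1 : k ≤ 1) (he : 0 < e) (he1 : e < 1)
    (hω : 0 ≤ ω) (hω2 : ω ≤ π / 2)
    (h : IsT k ω e v C S c s) (hs : s * cos ω - c * sin ω = 0) :
    (C, S, c, s) ∈ E4 ω ∧ (k = 1 ∨ ω = 0 ∨ ω = π / 2) := by
  obtain ⟨h1, h2, h3, h4⟩ := h
  obtain ⟨δ, hδ, hc, hs'⟩ := parallel h2 hs
  have hω' := sin_sq_add_cos_sq ω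
  have hδ0 : δ ≠ 0 := by rcases hδ with h | h <;> rw [h] <;> norm_num
  have hu : 0 < 1 + e * cos ω * c + e * sin ω * s := by
    rw [hc, hs']
    have : 1 + e * cos ω * (δ * cos ω) + e * sin ω * (δ * sin ω) = 1 + e * δ := by
      linear_combination (e * δ) * hω'
    rw [this]
    rcases hδ with h | h <;> rw [h] <;> linarith
  have hlhs : v * (e * sin ω * c - e * cos ω * s) = 0 := by
    linear_combination (-v * e) * hs
  rw [hlhs] at h4
  have h5 := (mul_eq_zero.1 h4.symm).resolve_left hu.ne'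
  have h6 : (δ + e) * (sin ω * C - k * cos ω * S) = 0 := by
    rw [hc, hs'] at h5
    linear_combination h5
  have hδe : δ + e ≠ 0 := by
    rcases hδ with h | h <;> rw [h]
    · linarith
    · intro h'; linarith
  have h7 : sin ω * C - k * cos ω * S = 0 := (mul_eq_zero.1 h6).resolve_left hδe
  have h8 : S * cos ω = k * C * sin ω := by
    have : δ * (S * cos ω) = δ * (k * C * sin ω) := by
      rw [hc, hs'] at h3
      linear_combination h3
    exact mul_left_cancel₀ hδ0 this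
  have h9 : (1 - k ^ 2) * (sin ω * C) = 0 := by
    linear_combination h7 + k * h8
  have h10 : (1 - k ^ 2) * (cos ω * S) = 0 := by
    linear_combination k * h7 + h8
  -- `S cos ω = C sin ω`
  have hCS : S * cos ω - C * sin ω = 0 ∧ (k = 1 ∨ ω = 0 ∨ ω = π / 2) := by
    rcases eq_or_ne k 1 with hk' | hk'
    · rw [hk'] at h8
      exact ⟨by linarith, Or.inl hk'⟩
    · have : (1 - k ^ 2) ≠ 0 := by
        have : k < 1 := lt_of_le_of_ne hk1 hk'
        nlinarith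
      have h11 := (mul_eq_zero.1 h9).resolve_left this
      have h12 := (mul_eq_zero.1 h10).resolve_left this
      refine ⟨by linarith, Or.inr ?_⟩
      by_contra hcon
      push Not at hcon
      have hω0 : 0 < ω := lt_of_le_of_ne hω (Ne.symm hcon.1)
      have hω1 : ω < π / 2 := lt_of_le_of_ne hω2 hcon.2
      have hsω : 0 < sin ω := sin_pos_of_pos_of_lt_pi hω0 (by linarith [pi_pos])
      have hcω : 0 < cos ω := cos_pos_of_mem_Ioo ⟨by linarith, hω1⟩
      have hC0 := (mul_eq_zero.1 h11).resolve_left hsω.ne'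
      have hS0 := (mul_eq_zero.1 h12).resolve_left hcω.ne'
      rw [hC0, hS0] at h1
      norm_num at h1
  obtain ⟨η, hη, hC, hS⟩ := parallel h1 hCS.1
  refine ⟨⟨(η, δ), ⟨mem_pm hη, mem_pm hδ⟩, ?_⟩, hCS.2⟩
  simp only
  rw [← hC, ← hS, ← hc, ← hs']

/-- The nondegenerate points of `Tset`. -/
lemma T_generic {k ω e v C S c s : ℝ} (hk : 0 < k) (he : 0 < e) (he1 : e < 1)
    (hv : 0 < v) (h : IsT k ω e v C S c s) (hs : s * cos ω - c * sin ω ≠ 0) :
    (C, S, c, s) ∈ Fmap k ω (-e) v 1 '' Zs (k ^ 2) ω (-e) v ∪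
      Fmap k ω e v (-1) '' Zs (k ^ 2) ω e v := by
  rcases lt_or_gt_of_ne hs with h0 | h0
  · right
    obtain ⟨θ, hθ, hc, hs'⟩ := exists_angle (ω := ω) (c := -c) (s := -s)
      (by have := h.2.1; linarith) (by linarith)
    have hc' : c = -1 * cos θ := by linarith
    have hs'' : s = -1 * sin θ := by linarith
    rw [hc', hs''] at h ⊢
    have := T_point hk he he1 hv (by norm_num) hθ h
    rw [show -(-1 * e) = e by ring] at this
    exact ⟨θ, this.1, this.2.symm⟩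
  · left
    obtain ⟨θ, hθ, hc, hs'⟩ := exists_angle (ω := ω) h.2.1 h0
    have hc' : c = 1 * cos θ := by linarith
    have hs'' : s = 1 * sin θ := by linarith
    rw [hc', hs''] at h ⊢
    have := T_point hk he he1 hv (by norm_num) hθ h
    rw [show -(1 * e) = -e by ring] at this
    exact ⟨θ, this.1, this.2.symm⟩

theorem Tset_card_mid {k ω e v : ℝ} (hk : 0 < k) (hk1 : k < 1) (he : 0 < e) (he1 : e < 1)
    (hv : 0 < v) (hω : 0 ≤ ω) (hω2 : ω ≤ π / 2) :
    (Tset k ω e v).Finite ∧ (Tset k ω e v).ncard ≤ 10 := by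
  have hK : 0 < k ^ 2 := by positivity
  have hK1 : k ^ 2 < 1 := by nlinarith
  by_cases hcase : ω = 0 ∨ ω = π / 2
  · have hZ := Zs_special (ω := ω) hK hK1 hcase he he1 hv
    have hE := E4_card ω
    have hsub : Tset k ω e v ⊆ (Fmap k ω (-e) v 1 '' Zs (k ^ 2) ω (-e) v ∪
        Fmap k ω e v (-1) '' Zs (k ^ 2) ω e v) ∪ E4 ω := by
      rintro ⟨C, S, c, s⟩ h
      by_cases h0 : s * cos ω - c * sin ω = 0
      · right; exact (T_degenerate hk.le hk1.le he he1 hω hω2 h h0).1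
      · left; exact T_generic hk he he1 hv h h0
    have hf : ((Fmap k ω (-e) v 1 '' Zs (k ^ 2) ω (-e) v ∪
        Fmap k ω e v (-1) '' Zs (k ^ 2) ω e v) ∪ E4 ω).Finite :=
      ((hZ.1.1.image _).union (hZ.2.1.image _)).union hE.1
    refine ⟨hf.subset hsub, (ncard_le_ncard hsub hf).trans ?_⟩
    refine (ncard_union_le _ _).trans ?_
    have h1 := ncard_union_le (Fmap k ω (-e) v 1 '' Zs (k ^ 2) ω (-e) v)
      (Fmap k ω e v (-1) '' Zs (k ^ 2) ω e v)
    have h2 := ncard_image_le (f := Fmap k ω (-e) v 1) hZ.1.1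
    have h3 := ncard_image_le (f := Fmap k ω e v (-1)) hZ.2.1
    have := hZ.1.2
    have := hZ.2.2
    have := hE.2
    omega
  · push Not at hcase
    have hω0 : 0 < ω := lt_of_le_of_ne hω (Ne.symm hcase.1)
    have hω1 : ω < π / 2 := lt_of_le_of_ne hω2 hcase.2
    have hZ := Zs_generic (ω := ω) hK hK1 hω0 hω1 he he1 hv
    have hsub : Tset k ω e v ⊆ Fmap k ω (-e) v 1 '' Zs (k ^ 2) ω (-e) v ∪
        Fmap k ω e v (-1) '' Zs (k ^ 2) ω e v := by
      rintro ⟨C, S, c, s⟩ h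
      by_cases h0 : s * cos ω - c * sin ω = 0
      · exfalso
        rcases (T_degenerate hk.le hk1.le he he1 hω hω2 h h0).2 with h' | h' | h'
        · linarith
        · exact hcase.1 h'
        · exact hcase.2 h'
      · exact T_generic hk he he1 hv h h0
    have hf : (Fmap k ω (-e) v 1 '' Zs (k ^ 2) ω (-e) v ∪
        Fmap k ω e v (-1) '' Zs (k ^ 2) ω e v).Finite :=
      (hZ.1.1.image _).union (hZ.2.1.image _)
    refine ⟨hf.subset hsub, (ncard_le_ncard hsub hf).trans ?_⟩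
    refine (ncard_union_le _ _).trans ?_
    have h2 := ncard_image_le (f := Fmap k ω (-e) v 1) hZ.1.1
    have h3 := ncard_image_le (f := Fmap k ω e v (-1)) hZ.2.1
    have := hZ.1.2
    have := hZ.2.2
    omega

end Pool.Agent.Helper75x.CE
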